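import Pool.Agent.Lib.MP_43832e_gt.Low.NP

set_option linter.all false

/-!
# Cutting off the Hamiltonians
-/

noncomputable section

namespace MP43832.Low

open Set Filter Topology MeasureTheory
open scoped ContDiff

/-- smooth functions which are periodic in `q` and vanish for `|p| > ρ` -/
structure Per (ρ : ℝ) (F : ℝ × (ℝ × ℝ) → ℝ) : Prop where
  smooth : ContDiff ℝ ∞ F
  per : ∀ s q p, F (s, (q + 1, p)) = F (s, (q, p))
  zero : ∀ s q p, ρ < |p| → F (s, (q, p)) = 0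

lemma Per.deriv {ρ : ℝ} {F : ℝ × (ℝ × ℝ) → ℝ} (h : Per ρ F) (v : ℝ × ℝ) :
    Per ρ (fun x => fderiv ℝ F x (0, v)) := by
  refine ⟨(h.smooth.fderiv_right (m := ∞) (by norm_cast)).clm_apply contDiff_const, ?_, ?_⟩
  · intro s q p
    have h1 : (fun x => F (x + (0, ((1 : ℝ), (0 : ℝ))))) = F := by
      ext ⟨s, q, p⟩
      simpa using h.per s q p
    have h2 := fderiv_comp_add_right (𝕜 := ℝ) (f := F) (x := (s, (q, p)))
      ((0 : ℝ), ((1 : ℝ), (0 : ℝ)))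
    rw [h1] at h2
    simp only [h2]
    simp
  · intro s q p hp
    have h1 : F =ᶠ[𝓝 (s, (q, p))] fun _ => 0 := by
      have : ∀ᶠ x : ℝ × (ℝ × ℝ) in 𝓝 (s, (q, p)), ρ < |x.2.2| := by
        apply (isOpen_lt continuous_const (by fun_prop)).mem_nhds
        exact hp
      filter_upwards [this] with x hx
      exact h.zero x.1 x.2.1 x.2.2 hx
    rw [h1.fderiv_eq]
    simp

lemma Per.bdd {ρ : ℝ} {F : ℝ × (ℝ × ℝ) → ℝ} (h : Per ρ F) :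
    ∃ C : ℝ, 0 ≤ C ∧ ∀ s ∈ Icc (0 : ℝ) 1, ∀ z, |F (s, z)| ≤ C := by
  have hcomp : IsCompact (Icc (0 : ℝ) 1 ×ˢ (Icc (0 : ℝ) 1 ×ˢ Icc (-ρ) ρ)) :=
    isCompact_Icc.prod (isCompact_Icc.prod isCompact_Icc)
  obtain ⟨C, hC⟩ := hcomp.exists_bound_of_continuousOn h.smooth.continuous.continuousOn
  refine ⟨max C 0, le_max_right _ _, fun s hs z => ?_⟩
  obtain ⟨q, p⟩ := z
  by_cases hp : ρ < |p|
  · rw [h.zero s q p hp]
    simp
  · push Not at hp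
    have hper : Function.Periodic (fun q => F (s, (q, p))) 1 := fun q => h.per s q p
    have h1 : F (s, (q, p)) = F (s, (Int.fract q, p)) := by
      have := hper.sub_int_mul_eq (x := q) ⌊q⌋
      rw [mul_one] at this
      exact this.symm
    rw [h1]
    refine le_trans (hC _ ?_) (le_max_left _ _)
    exact ⟨hs, ⟨Int.fract_nonneg q, (Int.fract_lt_one q).le⟩, abs_le.1 hp⟩

lemma Per.hasFDerivAt {ρ : ℝ} {F : ℝ × (ℝ × ℝ) → ℝ} (h : Per ρ F) (s : ℝ) (z : ℝ × ℝ) :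
    HasFDerivAt (fun z => F (s, z)) (fderiv ℝ F (s, z) (0, (1, 0)) •
      ContinuousLinearMap.fst ℝ ℝ ℝ + fderiv ℝ F (s, z) (0, (0, 1)) •
      ContinuousLinearMap.snd ℝ ℝ ℝ) z := by
  have h1 : HasFDerivAt F (fderiv ℝ F (s, z)) (s, z) :=
    ((h.smooth.differentiable (by simp)) (s, z)).hasFDerivAt
  have h2 := h1.comp z (hasFDerivAt_prodMk_right (𝕜 := ℝ) s z)
  refine h2.congr_fderiv ?_
  ext
  · simp
  · simp

lemma Per.lip {ρ : ℝ} {F : ℝ × (ℝ × ℝ) → ℝ} (h : Per ρ F) :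
    ∃ ℓ : ℝ, 0 ≤ ℓ ∧ ∀ s ∈ Icc (0 : ℝ) 1, ∀ z z', |F (s, z) - F (s, z')| ≤
      ℓ * (|z.1 - z'.1| + |z.2 - z'.2|) := by
  obtain ⟨C₁, h1, hC₁⟩ := (h.deriv (1, 0)).bdd
  obtain ⟨C₂, h2, hC₂⟩ := (h.deriv (0, 1)).bdd
  refine ⟨C₁ + C₂, by linarith, fun s hs z z' => ?_⟩
  have key := Convex.norm_image_sub_le_of_norm_hasFDerivWithin_le (𝕜 := ℝ) (s := univ)
    (f := fun z => F (s, z)) (C := C₁ + C₂) (x := z') (y := z)
    (fun x _ => (h.hasFDerivAt s x).hasFDerivWithinAt) (fun x _ => ?_) convex_univ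
    (mem_univ _) (mem_univ _)
  · rw [Real.norm_eq_abs] at key
    refine key.trans ?_
    apply mul_le_mul_of_nonneg_left _ (by linarith)
    rw [Prod.norm_def]
    apply max_le
    · simp only [Prod.fst_sub, Real.norm_eq_abs]
      linarith [abs_nonneg (z.2 - z'.2)]
    · simp only [Prod.snd_sub, Real.norm_eq_abs]
      linarith [abs_nonneg (z.1 - z'.1)]
  · apply ContinuousLinearMap.opNorm_le_bound _ (by linarith)
    intro y
    simp only [ContinuousLinearMap.add_apply, ContinuousLinearMap.smul_apply,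
      ContinuousLinearMap.coe_fst', ContinuousLinearMap.coe_snd', smul_eq_mul]
    have a1 := hC₁ s hs x
    have a2 := hC₂ s hs x
    have b1 : |y.1| ≤ ‖y‖ := norm_fst_le y
    have b2 : |y.2| ≤ ‖y‖ := norm_snd_le y
    rw [Real.norm_eq_abs]
    refine (abs_add_le _ _).trans ?_
    rw [abs_mul, abs_mul, add_mul]
    exact add_le_add (mul_le_mul a1 b1 (abs_nonneg _) h1) (mul_le_mul a2 b2 (abs_nonneg _) h2)

lemma Nice.mono {h hq hp : ℝ × ℝ → ℝ} {C ℓ C' ℓ' : ℝ} (H : Nice h hq hp C ℓ) (h1 : C ≤ C')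
    (h2 : ℓ ≤ ℓ') : Nice h hq hp C' ℓ' := by
  refine ⟨H.der, fun z => ⟨(H.bdd z).1.trans h1, (H.bdd z).2.trans h1⟩, fun z z' => ?_⟩
  have h3 : ℓ * (|z.1 - z'.1| + |z.2 - z'.2|) ≤ ℓ' * (|z.1 - z'.1| + |z.2 - z'.2|) :=
    mul_le_mul_of_nonneg_right h2 (by positivity)
  exact ⟨(H.lip z z').1.trans h3, (H.lip z z').2.trans h3⟩

lemma Per.nice {ρ : ℝ} {F : ℝ × (ℝ × ℝ) → ℝ} (h : Per ρ F) :
    ∃ C ℓ : ℝ, 0 ≤ C ∧ 0 ≤ ℓ ∧ ∀ s ∈ Icc (0 : ℝ) 1, Nice (fun z => F (s, z))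
      (fun z => fderiv ℝ F (s, z) (0, (1, 0))) (fun z => fderiv ℝ F (s, z) (0, (0, 1))) C ℓ := by
  obtain ⟨C₁, h1, hC₁⟩ := (h.deriv (1, 0)).bdd
  obtain ⟨C₂, h2, hC₂⟩ := (h.deriv (0, 1)).bdd
  obtain ⟨ℓ₁, g1, hℓ₁⟩ := (h.deriv (1, 0)).lip
  obtain ⟨ℓ₂, g2, hℓ₂⟩ := (h.deriv (0, 1)).lip
  refine ⟨C₁ + C₂, ℓ₁ + ℓ₂, by linarith, by linarith, fun s hs => ⟨fun z => h.hasFDerivAt s z,
    fun z => ?_, fun z z' => ?_⟩⟩
  · have a1 := hC₁ s hs z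
    have a2 := hC₂ s hs z
    exact ⟨by linarith, by linarith⟩
  · have a1 := hℓ₁ s hs z z'
    have a2 := hℓ₂ s hs z z'
    have a3 : 0 ≤ (|z.1 - z'.1| + |z.2 - z'.2|) := by positivity
    have a4 : 0 ≤ ℓ₁ * (|z.1 - z'.1| + |z.2 - z'.2|) := mul_nonneg g1 a3
    have a5 : 0 ≤ ℓ₂ * (|z.1 - z'.1| + |z.2 - z'.2|) := mul_nonneg g2 a3
    rw [add_mul]
    exact ⟨by linarith, by linarith⟩

/-- the cut off Hamiltonian -/
lemma exists_cut {H : ℝ → ℝ × ℝ → ℝ}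
    (hs : ContDiffOn ℝ ∞ (fun x : ℝ × (ℝ × ℝ) => H x.1 x.2) (univ ×ˢ Strip))
    (hper : ∀ s, ∀ z ∈ Strip, H s (z.1 + 1, z.2) = H s z) {ρ₀ : ℝ} (h0 : 0 ≤ ρ₀) (h1 : ρ₀ < 1) :
    ∃ (ρ : ℝ) (F : ℝ × (ℝ × ℝ) → ℝ), ρ₀ < ρ ∧ ρ < 1 ∧ Per ρ F ∧
      (∀ s, ∀ z : ℝ × ℝ, |z.2| ≤ ρ₀ → (fun z => F (s, z)) =ᶠ[𝓝 z] H s) ∧
      (∀ s, ∀ z : ℝ × ℝ, ∃ c ∈ Icc (0 : ℝ) 1, F (s, z) = c * H s z ∧ (ρ < |z.2| → c = 0)) := by
  let χ : ContDiffBump (0 : ℝ) := ⟨(1 + ρ₀) / 2, (3 + ρ₀) / 4, by linarith, by linarith⟩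
  have hz : ∀ p : ℝ, (3 + ρ₀) / 4 < |p| → χ p = 0 := by
    intro p hp
    apply χ.zero_of_le_dist
    rw [Real.dist_eq, sub_zero]
    exact hp.le
  refine ⟨(3 + ρ₀) / 4, fun x => χ x.2.2 * H x.1 x.2, by linarith, by linarith,
    ⟨?_, ?_, ?_⟩, ?_, ?_⟩
  · rw [contDiff_iff_contDiffAt]
    intro x
    by_cases hx : |x.2.2| < 1
    · have hx2 : x ∈ univ ×ˢ Strip := ⟨mem_univ _, abs_lt.1 hx⟩
      have h3 : ContDiffAt ℝ ∞ (fun x : ℝ × (ℝ × ℝ) => H x.1 x.2) x :=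
        hs.contDiffAt ((isOpen_univ.prod isOpen_Strip).mem_nhds hx2)
      have h4 : ContDiffAt ℝ ∞ (fun x : ℝ × (ℝ × ℝ) => χ x.2.2) x := by
        have : ContDiff ℝ ∞ (fun x : ℝ × (ℝ × ℝ) => χ x.2.2) :=
          χ.contDiff.comp (contDiff_snd.comp contDiff_snd)
        exact this.contDiffAt
      exact h4.mul h3
    · push Not at hx
      have h3 : (fun x : ℝ × (ℝ × ℝ) => χ x.2.2 * H x.1 x.2) =ᶠ[𝓝 x] fun _ => 0 := by
        have : ∀ᶠ y : ℝ × (ℝ × ℝ) in 𝓝 x, (3 + ρ₀) / 4 < |y.2.2| := by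
          apply (isOpen_lt continuous_const (by fun_prop)).mem_nhds
          change (3 + ρ₀) / 4 < |x.2.2|
          linarith
        filter_upwards [this] with y hy
        rw [hz _ hy, zero_mul]
      exact contDiffAt_const.congr_of_eventuallyEq h3
  · intro s q p
    simp only
    by_cases hp : (3 + ρ₀) / 4 < |p|
    · rw [hz p hp, zero_mul, zero_mul]
    · push Not at hp
      have : (q, p) ∈ Strip := abs_lt.1 (by linarith : |p| < 1)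
      rw [hper s _ this]
  · intro s q p hp
    simp only
    rw [hz p hp, zero_mul]
  · intro s z hzz
    have : ∀ᶠ y : ℝ × ℝ in 𝓝 z, |y.2| < (1 + ρ₀) / 2 := by
      apply (isOpen_lt (by fun_prop) continuous_const).mem_nhds
      change |z.2| < (1 + ρ₀) / 2
      linarith
    filter_upwards [this] with y hy
    have : χ y.2 = 1 := by
      apply χ.one_of_mem_closedBall
      rw [mem_closedBall_zero_iff, Real.norm_eq_abs]
      exact hy.le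
    rw [this, one_mul]
  · intro s z
    exact ⟨χ z.2, ⟨χ.nonneg, χ.le_one⟩, rfl, fun hp => hz _ hp⟩

end MP43832.Low
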