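import Pool.Agent.Lib.MP_43832e_gt.Low.One

set_option linter.all false

/-!
# The lower bound
-/

noncomputable section

namespace MP43832.Low

open Set Filter Topology MeasureTheory
open scoped ContDiff

variable {α β : Table}

/-- a continuous bound of a periodic function on the compact annuli -/
lemma exists_sup {G : ℝ → ℝ × ℝ → ℝ}
    (hG : ContinuousOn (fun x : ℝ × (ℝ × ℝ) => G x.1 x.2) (Icc 0 1 ×ˢ Strip))
    (hper : ∀ s ∈ Icc (0 : ℝ) 1, ∀ z ∈ Strip, G s (z.1 + 1, z.2) = G s z) {ρ : ℝ}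
    (h1 : ρ < 1) : ∃ m : ℝ → ℝ, Continuous m ∧ (∀ u, 0 ≤ m u) ∧
      (∀ u ∈ Icc (0 : ℝ) 1, ∀ z : ℝ × ℝ, |z.2| ≤ ρ → G u z ≤ m u) ∧
      (∀ u ∈ Icc (0 : ℝ) 1, ∀ S : ℝ, (∀ z ∈ Strip, G u z ≤ S) → 0 ≤ S → m u ≤ S) := by
  wlog h0 : 0 ≤ ρ with hwlog
  · obtain ⟨m, a1, a2, a3, a4⟩ := hwlog hG hper (ρ := 0) one_pos le_rfl
    refine ⟨m, a1, a2, fun u hu z hz => a3 u hu z ?_, a4⟩
    push Not at h0
    linarith
  set cl : ℝ → ℝ := fun u => max 0 (min 1 u) with hcl
  set cr : ℝ → ℝ := fun p => max (-ρ) (min ρ p) with hcr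
  have hclm : ∀ u, cl u ∈ Icc (0 : ℝ) 1 := fun u =>
    ⟨le_max_left _ _, max_le zero_le_one (min_le_left _ _)⟩
  have hcle : ∀ u ∈ Icc (0 : ℝ) 1, cl u = u := fun u hu => by
    simp only [hcl]
    rw [min_eq_right hu.2, max_eq_right hu.1]
  have hcrm : ∀ p, -1 < cr p ∧ cr p < 1 := fun p =>
    ⟨lt_of_lt_of_le (by linarith) (le_max_left _ _),
      lt_of_le_of_lt (max_le (by linarith) (min_le_left _ _)) h1⟩
  have hcre : ∀ p, |p| ≤ ρ → cr p = p := fun p hp => by
    obtain ⟨b1, b2⟩ := abs_le.1 hp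
    simp only [hcr]
    rw [min_eq_right b2, max_eq_right b1]
  set g : ℝ → ℝ × ℝ → ℝ := fun u z => G (cl u) (z.1, cr z.2) with hg
  have hgc : Continuous (fun x : ℝ × (ℝ × ℝ) => g x.1 x.2) := by
    rw [← continuousOn_univ]
    refine hG.comp (f := fun x : ℝ × (ℝ × ℝ) => (cl x.1, (x.2.1, cr x.2.2))) ?_ ?_
    · apply Continuous.continuousOn
      simp only [hcl, hcr]
      fun_prop
    · intro x _
      exact ⟨hclm _, hcrm _⟩
  set K : Set (ℝ × ℝ) := Icc 0 1 ×ˢ Icc (-ρ) ρ with hK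
  have hKc : IsCompact K := isCompact_Icc.prod isCompact_Icc
  have hsup : Continuous (fun u => sSup (g u '' K)) := hKc.continuous_sSup hgc
  have hKne : K.Nonempty := ⟨(0, 0), ⟨le_refl _, zero_le_one⟩, by simpa using h0, h0⟩
  have hbdd : ∀ u, BddAbove (g u '' K) := fun u =>
    (hKc.image (hgc.comp (Continuous.prodMk_right u))).bddAbove
  refine ⟨fun u => max 0 (sSup (g u '' K)), continuous_const.max hsup,
    fun u => le_max_left _ _, ?_, ?_⟩
  · rintro u hu ⟨q, p⟩ hz
    simp only at hz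
    have hst : ∀ q : ℝ, ((q, p) : ℝ × ℝ) ∈ Strip := fun q => abs_lt.1 (lt_of_le_of_lt hz h1)
    have hp2 : Function.Periodic (fun q => G u (q, p)) 1 := fun q => hper u hu (q, p) (hst q)
    have e1 : G u (q, p) = G u (Int.fract q, p) := by
      have := hp2.sub_int_mul_eq (x := q) ⌊q⌋
      rw [mul_one] at this
      exact this.symm
    refine le_trans ?_ (le_max_right _ _)
    apply le_csSup (hbdd u)
    refine ⟨(Int.fract q, p), ⟨⟨Int.fract_nonneg q, (Int.fract_lt_one q).le⟩, abs_le.1 hz⟩, ?_⟩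
    simp only [hg]
    rw [hcle u hu, hcre p hz, e1]
  · intro u hu S hS hS0
    apply max_le hS0
    apply csSup_le (hKne.image _)
    rintro _ ⟨z, hz, rfl⟩
    simp only [hg]
    rw [hcle u hu]
    exact hS _ (hcrm _)

lemma neBot_strip : (𝓝[Strip] ((0 : ℝ), (1 : ℝ))).NeBot := by
  have ht : Tendsto (fun t : ℝ => ((0 : ℝ), t)) (𝓝[Ioo (-1) 1] 1) (𝓝[Strip] (0, 1)) := by
    refine tendsto_nhdsWithin_iff.2 ⟨?_, ?_⟩
    · exact (Continuous.tendsto (by fun_prop) 1).mono_left nhdsWithin_le_nhds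
    · filter_upwards [self_mem_nhdsWithin] with t ht using ht
  have : (𝓝[Ioo (-1 : ℝ) 1] 1).NeBot := right_nhdsWithin_Ioo_neBot (by norm_num)
  exact ht.neBot

/-- the Hamiltonians are bounded -/
lemma bdd_H (P : HamPath α β) {u : ℝ} (hu : u ∈ Icc (0 : ℝ) 1) :
    BddAbove (P.H u '' Strip) ∧ BddBelow (P.H u '' Strip) := by
  have hc : ContinuousOn (P.H u) Strip :=
    P.smoothH.continuousOn.comp (f := fun z : ℝ × ℝ => (u, z)) (by fun_prop)
      (fun z hz => ⟨hu, hz⟩)
  have hKc : IsCompact (Icc (0 : ℝ) 1 ×ˢ Icc (-1 : ℝ) 1) := isCompact_Icc.prod isCompact_Icc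
  obtain ⟨C, hC⟩ : ∃ C : ℝ, ∀ z ∈ Icc (0 : ℝ) 1 ×ˢ Icc (-1 : ℝ) 1, z ∈ Strip →
      |P.H u z| ≤ C := by
    refine hKc.induction_on (p := fun S => ∃ C : ℝ, ∀ z ∈ S, z ∈ Strip → |P.H u z| ≤ C)
      ⟨0, fun z hz => absurd hz (by simp)⟩ ?_ ?_ ?_
    · rintro s t hst ⟨C, hC⟩
      exact ⟨C, fun z hz => hC z (hst hz)⟩
    · rintro s t ⟨C, hC⟩ ⟨C', hC'⟩
      refine ⟨max C C', fun z hz hz2 => ?_⟩
      rcases hz with hz | hz
      · exact (hC z hz hz2).trans (le_max_left _ _)
      · exact (hC' z hz hz2).trans (le_max_right _ _)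
    · rintro x ⟨hx1, hx2⟩
      by_cases hx : x ∈ Strip
      · have h1 : ∀ᶠ z in 𝓝 x, |P.H u z| < |P.H u x| + 1 :=
          ((hc.continuousAt (isOpen_Strip.mem_nhds hx)).abs).eventually_lt_const
            (by linarith)
        refine ⟨_, mem_nhdsWithin_of_mem_nhds h1, |P.H u x| + 1, fun z hz _ => ?_⟩
        exact le_of_lt hz
      · have hx3 : x.2 = 1 ∨ x.2 = -1 := by
          by_contra hcon
          push Not at hcon
          apply hx
          exact ⟨lt_of_le_of_ne hx2.1 (Ne.symm hcon.2), lt_of_le_of_ne hx2.2 hcon.1⟩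
        have h1 := P.bdryH u hu x hx3
        have h2 : ∀ᶠ z in 𝓝[Strip] x, |P.H u z| < 1 := by
          have := h1.abs
          rw [abs_zero] at this
          exact this.eventually_lt_const one_pos
        rw [eventually_nhdsWithin_iff] at h2
        refine ⟨_, mem_nhdsWithin_of_mem_nhds h2, 1, fun z hz hz2 => ?_⟩
        exact (hz hz2).le
  have hall : ∀ z ∈ Strip, |P.H u z| ≤ C := by
    rintro ⟨q, p⟩ hz
    have hp2 : Function.Periodic (fun q => P.H u (q, p)) 1 := fun q => P.perH u hu (q, p) hz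
    have e1 : P.H u (q, p) = P.H u (Int.fract q, p) := by
      have := hp2.sub_int_mul_eq (x := q) ⌊q⌋
      rw [mul_one] at this
      exact this.symm
    rw [e1]
    exact hC _ ⟨⟨Int.fract_nonneg q, (Int.fract_lt_one q).le⟩, ⟨hz.1.le, hz.2.le⟩⟩ hz
  refine ⟨⟨C, ?_⟩, ⟨-C, ?_⟩⟩
  · rintro _ ⟨z, hz, rfl⟩
    exact (abs_le.1 (hall z hz)).2
  · rintro _ ⟨z, hz, rfl⟩
    exact (abs_le.1 (hall z hz)).1

lemma sSup_nonneg (P : HamPath α β) {u : ℝ} (hu : u ∈ Icc (0 : ℝ) 1) :
    0 ≤ sSup (P.H u '' Strip) ∧ sInf (P.H u '' Strip) ≤ 0 := by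
  have := neBot_strip
  have h1 := P.bdryH u hu (0, 1) (Or.inl rfl)
  obtain ⟨h2, h3⟩ := bdd_H P hu
  constructor
  · apply le_of_tendsto h1
    filter_upwards [self_mem_nhdsWithin] with z hz
    exact le_csSup h2 (mem_image_of_mem _ hz)
  · apply ge_of_tendsto h1
    filter_upwards [self_mem_nhdsWithin] with z hz
    exact csInf_le h3 (mem_image_of_mem _ hz)

/-- the two-sided inequality, on the open triangle -/
lemma two (core : SpecCore) (hα : Geo α) (hβ : Geo β) (P : HamPath α β) {q Q q' Q' : ℝ}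
    (h1 : q < Q) (h2 : Q < q + 1) (h1' : q' < Q') (h2' : Q' < q' + 1) :
    ENNReal.ofReal ((len β q Q - len α q Q) - (len β q' Q' - len α q' Q')) ≤ P.length := by
  obtain ⟨j, j', h⟩ := np_of_path hα hβ P
  obtain ⟨κ, hκ⟩ := exists_kappa hα hβ h
  obtain ⟨ρ, hρ, key⟩ := one core hα hβ h hκ h1 h2
  obtain ⟨ρ', hρ', key'⟩ := one core hβ hα (h.reverse hα hβ) (κ := -κ) (fun w hw => by
    have hw' : ((w.1 - j', w.2) : ℝ × ℝ) ∈ Strip := hw
    rw [act_reverse, hκ _ hw']
    simp only [sub_zero, sub_self]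
    rw [len_left_sub_int hα, len_left_sub_int hβ]
    ring) h1' h2'
  have cH := P.smoothH.continuousOn
  obtain ⟨m, cm, m0, m1, m2⟩ := exists_sup (G := fun u z => -P.H u z) cH.neg
    (fun s hs z hz => by rw [P.perH s hs z hz]) hρ
  obtain ⟨m', cm', m0', m1', m2'⟩ := exists_sup (G := P.H) cH P.perH hρ'
  have k1 := key (fun s => deriv sg s * m (sg s))
    ((dsg_smooth.continuous.mul (cm.comp sg_smooth.continuous)).continuousOn)
    (fun s _ => mul_nonneg (dsg_nonneg s) (m0 _))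
    (fun s _ z hz => by
      have := mul_le_mul_of_nonneg_left (m1 (sg s) (sg_mem s) z hz) (dsg_nonneg s)
      simp only [Hn]
      linarith)
  have k2 := key' (fun s => deriv sg (1 - s) * m' (sg (1 - s)))
    (((dsg_smooth.continuous.comp (by fun_prop : Continuous fun s : ℝ => 1 - s)).mul
      (cm'.comp (sg_smooth.continuous.comp (by fun_prop : Continuous fun s : ℝ => 1 - s)))).continuousOn)
    (fun s _ => mul_nonneg (dsg_nonneg _) (m0' _))
    (fun s _ z hz => by
      have := mul_le_mul_of_nonneg_left (m1' (sg (1 - s)) (sg_mem _) z hz) (dsg_nonneg (1 - s))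
      simp only [Hn]
      linarith)
  have i1 : ∀ m : ℝ → ℝ, Continuous m →
      ∫ s in (0 : ℝ)..1, deriv sg s * m (sg s) = ∫ s in (0 : ℝ)..1, m s := by
    intro m cm
    have := intervalIntegral.integral_comp_mul_deriv (a := 0) (b := 1) (f := sg)
      (f' := deriv sg) (g := m) (fun x _ => sg_hasDerivAt x) dsg_smooth.continuous.continuousOn cm
    rw [sg_zero, sg_one] at this
    rw [← this]
    apply intervalIntegral.integral_congr
    intro s _
    simp only [Function.comp]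
    ring
  have i2 : ∫ s in (0 : ℝ)..1, deriv sg (1 - s) * m' (sg (1 - s)) =
      ∫ s in (0 : ℝ)..1, m' s := by
    have := intervalIntegral.integral_comp_sub_left (a := 0) (b := 1)
      (fun s => deriv sg s * m' (sg s)) 1
    simp only [sub_self, sub_zero] at this
    rw [this, i1 m' cm']
  rw [i1 m cm] at k1
  rw [i2] at k2
  have k3 : (len β q Q - len α q Q) - (len β q' Q' - len α q' Q') ≤
      ∫ s in (0 : ℝ)..1, (m s + m' s) := by
    rw [intervalIntegral.integral_add (cm.intervalIntegrable _ _) (cm'.intervalIntegrable _ _)]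
    linarith
  refine (ENNReal.ofReal_le_ofReal k3).trans ?_
  rw [intervalIntegral.integral_of_le zero_le_one, ← integral_Icc_eq_integral_Ioc,
    ofReal_integral_eq_lintegral_ofReal]
  · unfold HamPath.length
    apply setLIntegral_mono' measurableSet_Icc
    intro s hs
    apply ENNReal.ofReal_le_ofReal
    obtain ⟨b1, b2⟩ := bdd_H P hs
    obtain ⟨b3, b4⟩ := sSup_nonneg P hs
    have c1 : m s ≤ -sInf (P.H s '' Strip) := by
      apply m2 s hs _ _ (by linarith)
      intro z hz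
      have := csInf_le b2 (mem_image_of_mem _ hz)
      linarith
    have c2 : m' s ≤ sSup (P.H s '' Strip) := by
      apply m2' s hs _ _ b3
      intro z hz
      exact le_csSup b1 (mem_image_of_mem _ hz)
    linarith
  · exact (cm.add cm').continuousOn.integrableOn_compact isCompact_Icc
  · filter_upwards with s
    have := m0 s
    have := m0' s
    change (0 : ℝ) ≤ m s + m' s
    linarith

lemma continuous_dfn : Continuous (dfn α.γ β.γ) := by
  have h1 := α.smooth.continuous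
  have h2 := β.smooth.continuous
  unfold dfn
  fun_prop

/-- an upper bound on the open triangle is an upper bound -/
lemma dfn_le (hα : Geo α) (hβ : Geo β) {c : ℝ}
    (h : ∀ q Q, q < Q → Q < q + 1 → dfn α.γ β.γ (q, Q) ≤ c) (x : ℝ × ℝ) :
    dfn α.γ β.γ x ≤ c := by
  obtain ⟨q, Q⟩ := x
  have h1 : ∀ Q ∈ Icc q (q + 1), dfn α.γ β.γ (q, Q) ≤ c := by
    have h2 : closure (Ioo q (q + 1)) ⊆ {Q | dfn α.γ β.γ (q, Q) ≤ c} := by
      apply closure_minimal
      · intro Q hQ
        exact h q Q hQ.1 hQ.2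
      · exact isClosed_le (continuous_dfn.comp (by fun_prop)) continuous_const
    rw [closure_Ioo (by linarith)] at h2
    exact h2
  have h3 : dfn α.γ β.γ (q, Q) = dfn α.γ β.γ (q, Q - ⌊Q - q⌋) := by
    change len β q Q - len α q Q = len β q (Q - ⌊Q - q⌋) - len α q (Q - ⌊Q - q⌋)
    rw [len_sub_int hα, len_sub_int hβ]
  rw [h3]
  apply h1
  have h4 := Int.floor_le (Q - q)
  have h5 := Int.lt_floor_add_one (Q - q)
  constructor <;> linarith

lemma le_dfn (hα : Geo α) (hβ : Geo β) {c : ℝ}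
    (h : ∀ q Q, q < Q → Q < q + 1 → c ≤ dfn α.γ β.γ (q, Q)) (x : ℝ × ℝ) :
    c ≤ dfn α.γ β.γ x := by
  obtain ⟨q, Q⟩ := x
  have h1 : ∀ Q ∈ Icc q (q + 1), c ≤ dfn α.γ β.γ (q, Q) := by
    have h2 : closure (Ioo q (q + 1)) ⊆ {Q | c ≤ dfn α.γ β.γ (q, Q)} := by
      apply closure_minimal
      · intro Q hQ
        exact h q Q hQ.1 hQ.2
      · exact isClosed_le continuous_const (continuous_dfn.comp (by fun_prop))
    rw [closure_Ioo (by linarith)] at h2
    exact h2
  have h3 : dfn α.γ β.γ (q, Q) = dfn α.γ β.γ (q, Q - ⌊Q - q⌋) := by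
    change len β q Q - len α q Q = len β q (Q - ⌊Q - q⌋) - len α q (Q - ⌊Q - q⌋)
    rw [len_sub_int hα, len_sub_int hβ]
  rw [h3]
  apply h1
  have h4 := Int.floor_le (Q - q)
  have h5 := Int.lt_floor_add_one (Q - q)
  constructor <;> linarith

end MP43832.Low

namespace MP43832

open Set Low

/-- E: the lower bound -/
theorem specLower (core : SpecCore) (geo : SpecGeo) : SpecLower := by
  intro α β P
  have hα := geo α
  have hβ := geo β
  by_cases htop : P.length = ⊤
  · rw [htop]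
    exact le_top
  have key : ∀ x y : ℝ × ℝ, dfn α.γ β.γ x - dfn α.γ β.γ y ≤ P.length.toReal := by
    intro x y
    have h1 : dfn α.γ β.γ x ≤ dfn α.γ β.γ y + P.length.toReal := by
      apply dfn_le hα hβ
      intro q Q hq hQ
      have h2 : dfn α.γ β.γ (q, Q) - P.length.toReal ≤ dfn α.γ β.γ y := by
        apply le_dfn hα hβ
        intro q' Q' hq' hQ'
        have h3 := two core hα hβ P hq hQ hq' hQ'
        rw [ENNReal.ofReal_le_iff_le_toReal htop] at h3
        change (len β q Q - len α q Q) - P.length.toReal ≤ (len β q' Q' - len α q' Q')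
        linarith
      linarith
    linarith
  rw [ENNReal.ofReal_le_iff_le_toReal htop]
  unfold osc
  have h1 : sSup (range (dfn α.γ β.γ)) ≤ sInf (range (dfn α.γ β.γ)) + P.length.toReal := by
    apply csSup_le (range_nonempty _)
    rintro _ ⟨x, rfl⟩
    have h2 : dfn α.γ β.γ x - P.length.toReal ≤ sInf (range (dfn α.γ β.γ)) := by
      apply le_csInf (range_nonempty _)
      rintro _ ⟨y, rfl⟩
      linarith [key x y]
    linarith
  linarith

end MP43832
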