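import Pool.Agent.Lib.MP_43832e_gt.Spec

set_option linter.all false

/-!
# More properties of the chord length
-/

noncomputable section

namespace MP43832.Low

open Set Filter Topology MeasureTheory
open scoped ContDiff

variable {α : Table}

/-- a continuous function which is periodic is bounded away from an upper strict bound -/
lemma exists_lt_of_per {g : ℝ → ℝ} (hc : Continuous g) (hp : ∀ x, g (x + 1) = g x) {b : ℝ}
    (hb : ∀ x, g x < b) : ∃ c, c < b ∧ ∀ x, g x ≤ c := by
  obtain ⟨m, hm, hmax⟩ := (isCompact_Icc (a := (0 : ℝ)) (b := 1)).exists_isMaxOn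
    (nonempty_Icc.2 zero_le_one) hc.continuousOn
  refine ⟨g m, hb m, fun x => ?_⟩
  have hper : Function.Periodic g 1 := hp
  have h1 : g x = g (Int.fract x) := by
    have := hper.sub_int_mul_eq (x := x) ⌊x⌋
    rw [mul_one] at this
    rw [← this]
    rfl
  rw [h1]
  exact hmax ⟨Int.fract_nonneg x, (Int.fract_lt_one x).le⟩

lemma pp_anti (hG : Geo α) (q : ℝ) : StrictAntiOn (fun Q => pp α q Q) (Ioo q (q + 1)) := by
  apply strictAntiOn_of_deriv_neg (convex_Ioo _ _)
  · intro Q hQ
    exact (hG.der_pp q Q hQ.1 hQ.2).continuousAt.continuousWithinAt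
  · intro Q hQ
    rw [interior_Ioo] at hQ
    rw [(hG.der_pp q Q hQ.1 hQ.2).deriv]
    have := hG.kk_pos q Q hQ.1 hQ.2
    linarith

lemma PP_mono (hG : Geo α) (Q : ℝ) : StrictMonoOn (fun q => PP α q Q) (Ioo (Q - 1) Q) := by
  apply strictMonoOn_of_deriv_pos (convex_Ioo _ _)
  · intro q hq
    exact (hG.der_PP q Q hq.2 (by linarith [hq.1])).continuousAt.continuousWithinAt
  · intro q hq
    rw [interior_Ioo] at hq
    rw [(hG.der_PP q Q hq.2 (by linarith [hq.1])).deriv]
    exact hG.kk_pos q Q hq.2 (by linarith [hq.1])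

lemma pp_inj (hG : Geo α) {q Q Q' : ℝ} (h1 : q < Q) (h2 : Q < q + 1) (h1' : q < Q')
    (h2' : Q' < q + 1) (h : pp α q Q = pp α q Q') : Q = Q' :=
  (pp_anti hG q).injOn ⟨h1, h2⟩ ⟨h1', h2'⟩ h

lemma PP_inj (hG : Geo α) {q q' Q : ℝ} (h1 : q < Q) (h2 : Q < q + 1) (h1' : q' < Q)
    (h2' : Q < q' + 1) (h : PP α q Q = PP α q' Q) : q = q' :=
  (PP_mono hG Q).injOn ⟨by linarith, h1⟩ ⟨by linarith, h1'⟩ h

lemma continuous_pp_shift (hG : Geo α) {r : ℝ} (h0 : 0 < r) (h1 : r < 1) :
    Continuous (fun q => pp α q (q + r)) := by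
  have := hG.smooth_pp.continuousOn
  have h2 : ContinuousOn (fun q : ℝ => pp α q (q + r)) univ :=
    this.comp (f := fun q : ℝ => (q, q + r)) (by fun_prop)
      (fun q _ => ⟨by simpa using h0, by simpa using h1⟩)
  exact continuousOn_univ.1 h2

lemma continuous_PP_shift (hG : Geo α) {r : ℝ} (h0 : 0 < r) (h1 : r < 1) :
    Continuous (fun q => PP α q (q + r)) := by
  have := hG.smooth_PP.continuousOn
  have h2 : ContinuousOn (fun q : ℝ => PP α q (q + r)) univ :=
    this.comp (f := fun q : ℝ => (q, q + r)) (by fun_prop)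
      (fun q _ => ⟨by simpa using h0, by simpa using h1⟩)
  exact continuousOn_univ.1 h2

lemma pp_near_one (hG : Geo α) {r : ℝ} (hr : 0 < r) : ∃ ε : ℝ, 0 < ε ∧ ∀ q Q, q < Q →
    Q < q + 1 → 1 - ε < pp α q Q → Q < q + r := by
  set r' := min r (1 / 2) with hr'
  have h0 : 0 < r' := lt_min hr (by norm_num)
  have h1 : r' < 1 := lt_of_le_of_lt (min_le_right _ _) (by norm_num)
  obtain ⟨c, hc, hb⟩ := exists_lt_of_per (b := 1) (continuous_pp_shift hG h0 h1) (fun x => by
    have := hG.pp_per x (x + r')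
    rw [← this]; congr 1; ring) (fun x => (abs_lt.1 (hG.abs_pp x (x + r') (by linarith)
      (by linarith))).2)
  refine ⟨1 - c, by linarith, fun q Q h2 h3 h4 => ?_⟩
  by_contra h5
  push Not at h5
  have h6 : q + r' ≤ Q := le_trans (by linarith [min_le_left r (1 / 2)]) h5
  have h7 := (pp_anti hG q).antitoneOn ⟨by linarith, by linarith⟩ ⟨h2, h3⟩ h6
  have h8 := hb q
  linarith

lemma pp_near_neg (hG : Geo α) {r : ℝ} (hr : 0 < r) : ∃ ε : ℝ, 0 < ε ∧ ∀ q Q, q < Q →
    Q < q + 1 → pp α q Q < -1 + ε → q + 1 - r < Q := by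
  set r' := min r (1 / 2) with hr'
  have h0 : 0 < r' := lt_min hr (by norm_num)
  have h1 : r' < 1 := lt_of_le_of_lt (min_le_right _ _) (by norm_num)
  obtain ⟨c, hc, hb⟩ := exists_lt_of_per (g := fun q => -pp α q (q + (1 - r'))) (b := 1)
    (continuous_pp_shift hG (r := 1 - r') (by linarith) (by linarith)).neg (fun x => by
    have := hG.pp_per x (x + (1 - r'))
    rw [← this]; congr 2; ring) (fun x => by
      have := (abs_lt.1 (hG.abs_pp x (x + (1 - r')) (by linarith) (by linarith))).1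
      linarith)
  refine ⟨1 - c, by linarith, fun q Q h2 h3 h4 => ?_⟩
  by_contra h5
  push Not at h5
  have h6 : Q ≤ q + (1 - r') := le_trans h5 (by linarith [min_le_left r (1 / 2)])
  have h7 := (pp_anti hG q).antitoneOn ⟨h2, h3⟩ ⟨by linarith, by linarith⟩ h6
  have h8 := hb q
  linarith

lemma PP_near_one (hG : Geo α) {r : ℝ} (hr : 0 < r) : ∃ ε : ℝ, 0 < ε ∧ ∀ q Q, q < Q →
    Q < q + 1 → 1 - ε < PP α q Q → Q < q + r := by
  set r' := min r (1 / 2) with hr'
  have h0 : 0 < r' := lt_min hr (by norm_num)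
  have h1 : r' < 1 := lt_of_le_of_lt (min_le_right _ _) (by norm_num)
  obtain ⟨c, hc, hb⟩ := exists_lt_of_per (b := 1) (continuous_PP_shift hG h0 h1) (fun x => by
    have := hG.PP_per x (x + r')
    rw [← this]; congr 1; ring) (fun x => (abs_lt.1 (hG.abs_PP x (x + r') (by linarith)
      (by linarith))).2)
  refine ⟨1 - c, by linarith, fun q Q h2 h3 h4 => ?_⟩
  by_contra h5
  push Not at h5
  have h6 : q ≤ Q - r' := by linarith [min_le_left r (1 / 2)]
  have h7 := (PP_mono hG Q).monotoneOn ⟨by linarith, h2⟩ ⟨by linarith, by linarith⟩ h6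
  have h8 := hb (Q - r')
  simp only [sub_add_cancel] at h7 h8
  linarith

lemma PP_near_neg (hG : Geo α) {r : ℝ} (hr : 0 < r) : ∃ ε : ℝ, 0 < ε ∧ ∀ q Q, q < Q →
    Q < q + 1 → PP α q Q < -1 + ε → q + 1 - r < Q := by
  set r' := min r (1 / 2) with hr'
  have h0 : 0 < r' := lt_min hr (by norm_num)
  have h1 : r' < 1 := lt_of_le_of_lt (min_le_right _ _) (by norm_num)
  obtain ⟨c, hc, hb⟩ := exists_lt_of_per (g := fun q => -PP α q (q + (1 - r'))) (b := 1)
    (continuous_PP_shift hG (r := 1 - r') (by linarith) (by linarith)).neg (fun x => by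
    have := hG.PP_per x (x + (1 - r'))
    rw [← this]; congr 2; ring) (fun x => by
      have := (abs_lt.1 (hG.abs_PP x (x + (1 - r')) (by linarith) (by linarith))).1
      linarith)
  refine ⟨1 - c, by linarith, fun q Q h2 h3 h4 => ?_⟩
  by_contra h5
  push Not at h5
  have h6 : Q - (1 - r') ≤ q := by linarith [min_le_left r (1 / 2)]
  have h7 := (PP_mono hG Q).monotoneOn ⟨by linarith, by linarith⟩ ⟨by linarith, h2⟩ h6
  have h8 := hb (Q - (1 - r'))
  simp only [sub_add_cancel] at h7 h8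
  linarith

/-- periodicity in the first variable alone -/
lemma pp_per_left (hG : Geo α) (q Q : ℝ) : pp α (q + 1) Q = pp α q Q := by
  have := hG.pp_per q (Q - 1)
  rw [sub_add_cancel] at this
  rw [this]
  have := hG.pp_per' q (Q - 1)
  rw [sub_add_cancel] at this
  rw [this]

lemma PP_per_left (hG : Geo α) (q Q : ℝ) : PP α (q + 1) Q = PP α q Q := by
  have := hG.PP_per q (Q - 1)
  rw [sub_add_cancel] at this
  rw [this]
  have := hG.PP_per' q (Q - 1)
  rw [sub_add_cancel] at this
  rw [this]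

lemma pp_sub_int (hG : Geo α) (q Q : ℝ) (j : ℤ) : pp α q (Q - j) = pp α q Q := by
  have : Function.Periodic (fun Q => pp α q Q) 1 := fun Q => hG.pp_per' q Q
  have := this.sub_int_mul_eq (x := Q) j
  simpa using this

lemma PP_sub_int (hG : Geo α) (q Q : ℝ) (j : ℤ) : PP α q (Q - j) = PP α q Q := by
  have : Function.Periodic (fun Q => PP α q Q) 1 := fun Q => hG.PP_per' q Q
  have := this.sub_int_mul_eq (x := Q) j
  simpa using this

lemma len_per_left (hG : Geo α) (q Q : ℝ) : len α (q + 1) Q = len α q Q := by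
  have := hG.len_per q (Q - 1)
  rw [sub_add_cancel] at this
  rw [this]
  have := hG.len_per' q (Q - 1)
  rw [sub_add_cancel] at this
  rw [this]

lemma len_sub_int (hG : Geo α) (q Q : ℝ) (j : ℤ) : len α q (Q - j) = len α q Q := by
  have : Function.Periodic (fun Q => len α q Q) 1 := fun Q => hG.len_per' q Q
  have := this.sub_int_mul_eq (x := Q) j
  simpa using this

lemma len_left_sub_int (hG : Geo α) (q Q : ℝ) (j : ℤ) : len α (q - j) Q = len α q Q := by
  have : Function.Periodic (fun q => len α q Q) 1 := fun q => len_per_left hG q Q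
  have := this.sub_int_mul_eq (x := q) j
  simpa using this

lemma pp_left_sub_int (hG : Geo α) (q Q : ℝ) (j : ℤ) : pp α (q - j) Q = pp α q Q := by
  have : Function.Periodic (fun q => pp α q Q) 1 := fun q => pp_per_left hG q Q
  have := this.sub_int_mul_eq (x := q) j
  simpa using this

lemma PP_left_sub_int (hG : Geo α) (q Q : ℝ) (j : ℤ) : PP α (q - j) Q = PP α q Q := by
  have : Function.Periodic (fun q => PP α q Q) 1 := fun q => PP_per_left hG q Q
  have := this.sub_int_mul_eq (x := q) j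
  simpa using this

end MP43832.Low
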