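import Pool.Agent.Lib.MP_43832e_gt.Spec

set_option linter.all false

/-!
# Green's formula for the action form
-/

noncomputable section

namespace MP43832.Low

open Set Filter Topology MeasureTheory
open scoped ContDiff

/-- partial derivative in the first variable -/
def ds (F : ℝ × ℝ → ℝ) (x : ℝ × ℝ) : ℝ := fderiv ℝ F x (1, 0)

/-- partial derivative in the second variable -/
def dt (F : ℝ × ℝ → ℝ) (x : ℝ × ℝ) : ℝ := fderiv ℝ F x (0, 1)

lemma ds_smooth {F : ℝ × ℝ → ℝ} (hF : ContDiff ℝ ∞ F) : ContDiff ℝ ∞ (ds F) :=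
  (hF.fderiv_right (m := ∞) (by norm_cast)).clm_apply contDiff_const

lemma dt_smooth {F : ℝ × ℝ → ℝ} (hF : ContDiff ℝ ∞ F) : ContDiff ℝ ∞ (dt F) :=
  (hF.fderiv_right (m := ∞) (by norm_cast)).clm_apply contDiff_const

lemma hasDerivAt_ds {F : ℝ × ℝ → ℝ} (hF : ContDiff ℝ ∞ F) (s t : ℝ) :
    HasDerivAt (fun s => F (s, t)) (ds F (s, t)) s := by
  have h1 : HasFDerivAt F (fderiv ℝ F (s, t)) (s, t) :=
    ((hF.differentiable (by simp)) (s, t)).hasFDerivAt
  have h2 : HasDerivAt (fun s : ℝ => (s, t)) ((1 : ℝ), (0 : ℝ)) s :=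
    (hasDerivAt_id s).prodMk (hasDerivAt_const s t)
  exact h1.comp_hasDerivAt s h2

lemma hasDerivAt_dt {F : ℝ × ℝ → ℝ} (hF : ContDiff ℝ ∞ F) (s t : ℝ) :
    HasDerivAt (fun t => F (s, t)) (dt F (s, t)) t := by
  have h1 : HasFDerivAt F (fderiv ℝ F (s, t)) (s, t) :=
    ((hF.differentiable (by simp)) (s, t)).hasFDerivAt
  have h2 : HasDerivAt (fun t : ℝ => (s, t)) ((0 : ℝ), (1 : ℝ)) t :=
    (hasDerivAt_const t s).prodMk (hasDerivAt_id t)
  exact h1.comp_hasDerivAt t h2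

lemma ds_dt {F : ℝ × ℝ → ℝ} (hF : ContDiff ℝ ∞ F) (x : ℝ × ℝ) : ds (dt F) x = dt (ds F) x := by
  have hd : DifferentiableAt ℝ (fderiv ℝ F) x :=
    ((hF.fderiv_right (m := ∞) (by norm_cast)).differentiable (by simp)) x
  have h1 : ∀ v w : ℝ × ℝ, fderiv ℝ (fun y => fderiv ℝ F y v) x w =
      fderiv ℝ (fderiv ℝ F) x w v := by
    intro v w
    rw [fderiv_clm_apply hd (by fun_prop)]
    simp
  have h2 : IsSymmSndFDerivAt ℝ F x := by
    apply ContDiffAt.isSymmSndFDerivAt (n := ∞) hF.contDiffAt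
    rw [minSmoothness_of_isRCLikeNormedField]
    exact ENat.LEInfty.out
  change fderiv ℝ (fun y => fderiv ℝ F y (0, 1)) x (1, 0) =
    fderiv ℝ (fun y => fderiv ℝ F y (1, 0)) x (0, 1)
  rw [h1, h1]
  exact h2 (1, 0) (0, 1)

/-- Green's formula -/
lemma green {Q P h : ℝ × ℝ → ℝ} (hQ : ContDiff ℝ ∞ Q) (hP : ContDiff ℝ ∞ P) (hh : ContDiff ℝ ∞ h)
    (heq : ∀ x, dt h x = ds Q x * dt P x - ds P x * dt Q x) :
    (∫ s in (0 : ℝ)..1, (P (s, 1) * ds Q (s, 1) - h (s, 1))) -
      (∫ s in (0 : ℝ)..1, (P (s, 0) * ds Q (s, 0) - h (s, 0))) =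
    (∫ t in (0 : ℝ)..1, P (1, t) * dt Q (1, t)) - (∫ t in (0 : ℝ)..1, P (0, t) * dt Q (0, t)) := by
  have cQs := (ds_smooth hQ).continuous
  have cQt := (dt_smooth hQ).continuous
  have cPs := (ds_smooth hP).continuous
  have cPt := (dt_smooth hP).continuous
  have cP := hP.continuous
  have cQts := (dt_smooth (ds_smooth hQ)).continuous
  set W : ℝ × ℝ → ℝ := fun x => ds P x * dt Q x + P x * dt (ds Q) x with hW
  have cW : Continuous W := (cPs.mul cQt).add (cP.mul cQts)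
  have h1 : ∀ s t, HasDerivAt (fun t => P (s, t) * ds Q (s, t) - h (s, t)) (W (s, t)) t := by
    intro s t
    refine (((hasDerivAt_dt hP s t).mul (hasDerivAt_dt (ds_smooth hQ) s t)).sub
      (hasDerivAt_dt hh s t)).congr_deriv ?_
    rw [heq, hW]
    ring
  have h2 : ∀ s t, HasDerivAt (fun s => P (s, t) * dt Q (s, t)) (W (s, t)) s := by
    intro s t
    refine ((hasDerivAt_ds hP s t).mul (hasDerivAt_ds (dt_smooth hQ) s t)).congr_deriv ?_
    rw [ds_dt hQ, hW]
  have c1 : ∀ s, Continuous (fun t => W (s, t)) := fun s => cW.comp (by fun_prop)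
  have c2 : ∀ t, Continuous (fun s => W (s, t)) := fun t => cW.comp (by fun_prop)
  have e1 : ∀ s, (P (s, 1) * ds Q (s, 1) - h (s, 1)) - (P (s, 0) * ds Q (s, 0) - h (s, 0)) =
      ∫ t in (0 : ℝ)..1, W (s, t) := by
    intro s
    rw [intervalIntegral.integral_eq_sub_of_hasDerivAt (fun t _ => h1 s t)
      ((c1 s).intervalIntegrable _ _)]
  have e2 : ∀ t, P (1, t) * dt Q (1, t) - P (0, t) * dt Q (0, t) =
      ∫ s in (0 : ℝ)..1, W (s, t) := by
    intro t
    rw [intervalIntegral.integral_eq_sub_of_hasDerivAt (fun s _ => h2 s t)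
      ((c2 t).intervalIntegrable _ _)]
  have i1 : ∀ t, Continuous (fun s => P (s, t) * ds Q (s, t) - h (s, t)) := by
    intro t
    have := hh.continuous
    fun_prop
  have i2 : ∀ s, Continuous (fun t => P (s, t) * dt Q (s, t)) := by
    intro s
    fun_prop
  rw [← intervalIntegral.integral_sub ((i1 1).intervalIntegrable _ _)
    ((i1 0).intervalIntegrable _ _), ← intervalIntegral.integral_sub
    ((i2 1).intervalIntegrable _ _) ((i2 0).intervalIntegrable _ _)]
  rw [intervalIntegral.integral_congr (fun s _ => e1 s),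
    intervalIntegral.integral_congr (fun t _ => e2 t)]
  apply MeasureTheory.intervalIntegral_intervalIntegral_swap
  have hc : Continuous (fun s t => W (s, t)).uncurry := cW
  exact (hc.continuousOn.integrableOn_compact (isCompact_uIcc.prod isCompact_uIcc)).mono_set
    (prod_mono uIoc_subset_uIcc uIoc_subset_uIcc)

end MP43832.Low
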