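import Pool.Agent.Lib.MP_43832e_gt.Low.NP
import Pool.Agent.Lib.MP_43832e_gt.Low.Green

set_option linter.all false

/-!
# The action of a Hamiltonian path
-/

noncomputable section

namespace MP43832.Low

open Set Filter Topology MeasureTheory
open scoped ContDiff

/-- the action -/
def act (Φ : ℝ → ℝ × ℝ → ℝ × ℝ) (H : ℝ → ℝ × ℝ → ℝ) (w : ℝ × ℝ) : ℝ :=
  ∫ s in (0 : ℝ)..1, ((Φ s w).2 * (XH (H s) (Φ s w)).1 - H s (Φ s w))

variable {α β : Table}

/-- the end point contributions -/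
lemma endp (hα : Geo α) {q p Q P q' Q' : ℝ → ℝ} (hq : ∀ t, HasDerivAt q (q' t) t)
    (hQ : ∀ t, HasDerivAt Q (Q' t) t) (cq : Continuous q') (cp : Continuous p)
    (cP : Continuous P) (cQ : Continuous Q') (j : ℤ)
    (hst : ∀ t, St α (q t, p t) (Q t - j, P t)) :
    ∫ t in (0 : ℝ)..1, P t * Q' t = len α (q 1) (Q 1) - len α (q 0) (Q 0) +
      ∫ t in (0 : ℝ)..1, p t * q' t := by
  have h1 : ∀ t, HasDerivAt (fun t => len α (q t) (Q t)) (P t * Q' t - p t * q' t) t := by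
    intro t
    obtain ⟨a1, a2, a3, a4⟩ := hst t
    simp only at a1 a2 a3 a4
    have h2 := (hα.der (q t) (Q t - j) a1 a2).comp_hasDerivAt t
      ((hq t).prodMk ((hQ t).sub_const (j : ℝ)))
    have h2' : (fun t => len α (q t) (Q t)) =
        (fun x : ℝ × ℝ => len α x.1 x.2) ∘ (fun t => (q t, Q t - (j : ℝ))) := by
      ext t
      simp only [Function.comp, len_sub_int hα]
    rw [h2']
    refine h2.congr_deriv ?_
    simp only [ContinuousLinearMap.add_apply, ContinuousLinearMap.smul_apply,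
      ContinuousLinearMap.coe_fst', ContinuousLinearMap.coe_snd', smul_eq_mul]
    rw [← a3, ← a4]
    ring
  have h3 := intervalIntegral.integral_eq_sub_of_hasDerivAt (a := 0) (b := 1) (fun t _ => h1 t)
    (((cP.mul cQ).sub (cp.mul cq)).intervalIntegrable _ _)
  have h4 := intervalIntegral.integral_sub (μ := volume) (a := 0) (b := 1)
    (f := fun t => P t * Q' t) (g := fun t => p t * q' t)
    ((cP.mul cQ).intervalIntegrable _ _) ((cp.mul cq).intervalIntegrable _ _)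
  rw [h4] at h3
  linarith

lemma act_sub (hα : Geo α) (hβ : Geo β) {Φ : ℝ → ℝ × ℝ → ℝ × ℝ} {H : ℝ → ℝ × ℝ → ℝ}
    {j : ℤ} (h : NP α β Φ H j) {w₀ w₁ : ℝ × ℝ} (h0 : w₀ ∈ Strip) (h1 : w₁ ∈ Strip) :
    act Φ H w₁ - act Φ H w₀ =
      (len β w₁.1 (Φ 1 w₁).1 - len β w₀.1 (Φ 1 w₀).1) -
      (len α w₁.1 (Φ 0 w₁).1 - len α w₀.1 (Φ 0 w₀).1) := by
  set z : ℝ → ℝ × ℝ := fun t => w₀ + sg t • (w₁ - w₀) with hz
  have hzs : ContDiff ℝ ∞ z := contDiff_const.add (sg_smooth.smul contDiff_const)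
  have hzm : ∀ t, z t ∈ Strip := by
    intro t
    obtain ⟨a1, a2⟩ := sg_mem t
    have : z t = (1 - sg t) • w₀ + sg t • w₁ := by
      simp only [hz]
      module
    rw [this]
    exact convex_Strip h0 h1 (by linarith) a1 (by ring)
  have hz0 : z 0 = w₀ := by simp [hz, sg_zero]
  have hz1 : z 1 = w₁ := by simp [hz, sg_one]
  have hΦ : ContDiff ℝ ∞ (fun x : ℝ × ℝ => Φ x.1 (z x.2)) := by
    rw [← contDiffOn_univ]
    refine h.smoothΦ.comp (f := fun x : ℝ × ℝ => (x.1, z x.2)) ?_ (fun x _ => ⟨mem_univ _, hzm _⟩)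
    exact (contDiff_fst.prodMk (hzs.comp contDiff_snd)).contDiffOn
  set Q : ℝ × ℝ → ℝ := fun x => (Φ x.1 (z x.2)).1 with hQdef
  set P : ℝ × ℝ → ℝ := fun x => (Φ x.1 (z x.2)).2 with hPdef
  set g : ℝ × ℝ → ℝ := fun x => H x.1 (Φ x.1 (z x.2)) with hgdef
  have hQ : ContDiff ℝ ∞ Q := contDiff_fst.comp hΦ
  have hP : ContDiff ℝ ∞ P := contDiff_snd.comp hΦ
  have hg : ContDiff ℝ ∞ g := by
    rw [← contDiffOn_univ]
    refine h.smoothH.comp (f := fun x : ℝ × ℝ => (x.1, Φ x.1 (z x.2))) ?_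
      (fun x _ => ⟨mem_univ _, h.maps _ _ (hzm _)⟩)
    exact (contDiff_fst.prodMk hΦ).contDiffOn
  have e1 : ∀ s t, ds Q (s, t) = (XH (H s) (Φ s (z t))).1 := by
    intro s t
    have a1 := hasDerivAt_ds hQ s t
    have a2 := (h.flow s (z t) (hzm t)).fst
    exact a1.unique a2
  have e2 : ∀ s t, ds P (s, t) = (XH (H s) (Φ s (z t))).2 := by
    intro s t
    have a1 := hasDerivAt_ds hP s t
    have a2 := (h.flow s (z t) (hzm t)).snd
    exact a1.unique a2
  have hHd : ∀ s, ∀ y ∈ Strip, DifferentiableAt ℝ (H s) y := by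
    intro s y hy
    have a1 : ContDiffOn ℝ ∞ (H s) Strip := by
      refine h.smoothH.comp (f := fun x : ℝ × ℝ => (s, x)) ?_ (fun x hx => ⟨mem_univ _, hx⟩)
      exact (contDiff_const.prodMk contDiff_id).contDiffOn
    exact (a1.contDiffAt (isOpen_Strip.mem_nhds hy)).differentiableAt (by simp)
  have heq : ∀ x, dt g x = ds Q x * dt P x - ds P x * dt Q x := by
    rintro ⟨s, t⟩
    have a1 := hasDerivAt_dt hg s t
    have a2 : HasDerivAt (fun t => Φ s (z t)) (dt Q (s, t), dt P (s, t)) t :=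
      (hasDerivAt_dt hQ s t).prodMk (hasDerivAt_dt hP s t)
    have a3 := (hHd s _ (h.maps s _ (hzm t))).hasFDerivAt.comp_hasDerivAt t a2
    rw [a1.unique a3, e1, e2]
    have a4 : ((dt Q (s, t), dt P (s, t)) : ℝ × ℝ) =
        dt Q (s, t) • ((1 : ℝ), (0 : ℝ)) + dt P (s, t) • ((0 : ℝ), (1 : ℝ)) := by
      ext <;> simp
    rw [a4, map_add, map_smul, map_smul]
    simp only [XH, smul_eq_mul]
    ring
  have key := green hQ hP hg heq
  have s0 := endp (q := fun t => (z t).1) (p := fun t => (z t).2) (Q := fun t => Q (0, t))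
    (P := fun t => P (0, t)) (q' := fun t => (deriv z t).1) (Q' := fun t => dt Q (0, t)) hα
    (fun t => ((hzs.differentiable (by simp)) t).hasDerivAt.fst)
    (fun t => hasDerivAt_dt hQ 0 t)
    (continuous_fst.comp (hzs.continuous_deriv (by simp)))
    (continuous_snd.comp hzs.continuous) (hP.continuous.comp (by fun_prop))
    ((dt_smooth hQ).continuous.comp (by fun_prop)) 0
    (fun t => by simpa using h.start _ (hzm t))
  have s1 := endp (q := fun t => (z t).1) (p := fun t => (z t).2) (Q := fun t => Q (1, t))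
    (P := fun t => P (1, t)) (q' := fun t => (deriv z t).1) (Q' := fun t => dt Q (1, t)) hβ
    (fun t => ((hzs.differentiable (by simp)) t).hasDerivAt.fst)
    (fun t => hasDerivAt_dt hQ 1 t)
    (continuous_fst.comp (hzs.continuous_deriv (by simp)))
    (continuous_snd.comp hzs.continuous) (hP.continuous.comp (by fun_prop))
    ((dt_smooth hQ).continuous.comp (by fun_prop)) j
    (fun t => h.finish _ (hzm t))
  rw [s0, s1] at key
  have t0 : (∫ s in (0 : ℝ)..1, (P (s, 0) * ds Q (s, 0) - g (s, 0))) = act Φ H w₀ := by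
    unfold act
    apply intervalIntegral.integral_congr
    intro s _
    simp only [e1, hPdef, hgdef, hz0]
  have t1 : (∫ s in (0 : ℝ)..1, (P (s, 1) * ds Q (s, 1) - g (s, 1))) = act Φ H w₁ := by
    unfold act
    apply intervalIntegral.integral_congr
    intro s _
    simp only [e1, hPdef, hgdef, hz1]
  rw [t0, t1] at key
  simp only [hQdef, hz0, hz1] at key
  linarith

lemma exists_kappa (hα : Geo α) (hβ : Geo β) {Φ : ℝ → ℝ × ℝ → ℝ × ℝ} {H : ℝ → ℝ × ℝ → ℝ}
    {j : ℤ} (h : NP α β Φ H j) : ∃ κ : ℝ, ∀ w ∈ Strip,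
    act Φ H w = len β w.1 (Φ 1 w).1 - len α w.1 (Φ 0 w).1 + κ := by
  have h0 : ((0 : ℝ), (0 : ℝ)) ∈ Strip := ⟨by norm_num, by norm_num⟩
  refine ⟨act Φ H (0, 0) - (len β 0 (Φ 1 (0, 0)).1 - len α 0 (Φ 0 (0, 0)).1), fun w hw => ?_⟩
  have := act_sub hα hβ h h0 hw
  simp only at this
  linarith

/-- the action of the reversed path -/
lemma act_reverse (Φ : ℝ → ℝ × ℝ → ℝ × ℝ) (H : ℝ → ℝ × ℝ → ℝ) (j : ℤ) (w : ℝ × ℝ) :
    act (fun s z => Φ (1 - s) (z.1 - j, z.2)) (fun s z => -H (1 - s) z) w =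
      -act Φ H (w.1 - j, w.2) := by
  unfold act
  rw [← intervalIntegral.integral_neg]
  have h4 : ∀ s z, XH (fun z => -H (1 - s) z) z = (-1 : ℝ) • XH (H (1 - s)) z := by
    intro s z
    rw [← XH_const_mul]
    congr 1
    ext z
    ring
  have := intervalIntegral.integral_comp_sub_left (a := 0) (b := 1)
    (fun s => -((Φ s (w.1 - j, w.2)).2 * (XH (H s) (Φ s (w.1 - j, w.2))).1 -
      H s (Φ s (w.1 - j, w.2)))) 1
  simp only [sub_self, sub_zero] at this
  rw [← this]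
  apply intervalIntegral.integral_congr
  intro s _
  simp only [h4]
  simp only [Prod.smul_fst, smul_eq_mul]
  ring

end MP43832.Low
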