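import Pool.Agent.Lib.MP_43832e_gt.Low.Geo2

set_option linter.all false

/-!
# Normalised Hamiltonian paths
-/

noncomputable section

namespace MP43832.Low

open Set Filter Topology MeasureTheory
open scoped ContDiff

lemma isOpen_Strip : IsOpen Strip := by
  have : Strip = (fun z : ℝ × ℝ => z.2) ⁻¹' Ioo (-1) 1 := rfl
  rw [this]
  exact isOpen_Ioo.preimage continuous_snd

lemma convex_Strip : Convex ℝ Strip := by
  have : Strip = univ ×ˢ Ioo (-1 : ℝ) 1 := by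
    ext z
    simp [Strip]
  rw [this]
  exact convex_univ.prod (convex_Ioo _ _)

/-- the generating relation on the universal cover -/
def St (α : Table) (z w : ℝ × ℝ) : Prop :=
  z.1 < w.1 ∧ w.1 < z.1 + 1 ∧ z.2 = pp α z.1 w.1 ∧ w.2 = PP α z.1 w.1

/-- a normalised path -/
structure NP (α β : Table) (Φ : ℝ → ℝ × ℝ → ℝ × ℝ) (H : ℝ → ℝ × ℝ → ℝ) (j : ℤ) : Prop where
  smoothΦ : ContDiffOn ℝ ∞ (fun x : ℝ × (ℝ × ℝ) => Φ x.1 x.2) (univ ×ˢ Strip)
  smoothH : ContDiffOn ℝ ∞ (fun x : ℝ × (ℝ × ℝ) => H x.1 x.2) (univ ×ˢ Strip)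
  perΦ : ∀ s, ∀ z ∈ Strip, Φ s (z.1 + 1, z.2) = ((Φ s z).1 + 1, (Φ s z).2)
  perH : ∀ s, ∀ z ∈ Strip, H s (z.1 + 1, z.2) = H s z
  maps : ∀ s, ∀ z ∈ Strip, Φ s z ∈ Strip
  surj0 : ∀ w ∈ Strip, ∃ z ∈ Strip, Φ 0 z = w
  surj1 : ∀ w ∈ Strip, ∃ z ∈ Strip, Φ 1 z = w
  flow : ∀ s, ∀ z ∈ Strip, HasDerivAt (fun t => Φ t z) (XH (H s) (Φ s z)) s
  start : ∀ z ∈ Strip, St α z (Φ 0 z)
  finish : ∀ z ∈ Strip, St β z ((Φ 1 z).1 - j, (Φ 1 z).2)

section
variable {α β : Table}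

/-- the floor of the displacement is constant -/
lemma exists_floor {φ : ℝ × ℝ → ℝ × ℝ} (hc : ContinuousOn φ Strip)
    (h : ∀ z ∈ Strip, ∀ k : ℤ, (φ z).1 - z.1 ≠ k) :
    ∃ j : ℤ, ∀ z ∈ Strip, z.1 + j < (φ z).1 ∧ (φ z).1 < z.1 + j + 1 := by
  have h0 : ((0 : ℝ), (0 : ℝ)) ∈ Strip := ⟨by norm_num, by norm_num⟩
  set g : ℝ × ℝ → ℝ := fun z => (φ z).1 - z.1 with hg
  have hgc : ContinuousOn g Strip := by
    apply ContinuousOn.sub
    · exact continuous_fst.comp_continuousOn hc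
    · exact continuous_fst.continuousOn
  have hpre : IsPreconnected (g '' Strip) := (convex_Strip.isPreconnected).image g hgc
  have key : ∀ z ∈ Strip, ∀ w ∈ Strip, ⌊g z⌋ ≤ ⌊g w⌋ := by
    intro z hz w hw
    by_contra hlt
    push Not at hlt
    have h1 : g w < (⌊g w⌋ : ℝ) + 1 := Int.lt_floor_add_one _
    have h2 : ((⌊g w⌋ : ℝ) + 1) ≤ ⌊g z⌋ := by exact_mod_cast hlt
    have h3 : ((⌊g z⌋ : ℤ) : ℝ) ≤ g z := Int.floor_le _
    have h4 : ((⌊g z⌋ : ℤ) : ℝ) ∈ g '' Strip := by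
      apply hpre.Icc_subset (mem_image_of_mem g hw) (mem_image_of_mem g hz)
      exact ⟨by linarith, h3⟩
    obtain ⟨y, hy, hy2⟩ := h4
    exact h y hy _ hy2
  refine ⟨⌊g (0, 0)⌋, fun z hz => ?_⟩
  have e : ⌊g z⌋ = ⌊g (0, 0)⌋ := le_antisymm (key _ hz _ h0) (key _ h0 _ hz)
  rw [← e]
  have h1 : ((⌊g z⌋ : ℤ) : ℝ) ≤ g z := Int.floor_le _
  have h2 : ((⌊g z⌋ : ℤ) : ℝ) ≠ g z := fun hh => h z hz _ hh.symm
  have h3 : g z < (⌊g z⌋ : ℝ) + 1 := Int.lt_floor_add_one _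
  have h4 := lt_of_le_of_ne h1 h2
  have h5 : g z = (φ z).1 - z.1 := rfl
  constructor <;> linarith

lemma st_of_bil (hG : Geo α) {z w : ℝ × ℝ} {j : ℤ} (hb : Bil α z w) (h1 : z.1 + j < w.1)
    (h2 : w.1 < z.1 + j + 1) : St α (z.1 + j, z.2) w := by
  have e1 : pp α (z.1 + j) w.1 = pp α z.1 w.1 := by
    have := pp_left_sub_int hG (z.1 + j) w.1 j
    rwa [add_sub_cancel_right, eq_comm] at this
  have e2 : PP α (z.1 + j) w.1 = PP α z.1 w.1 := by
    have := PP_left_sub_int hG (z.1 + j) w.1 j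
    rwa [add_sub_cancel_right, eq_comm] at this
  refine ⟨h1, h2, ?_, ?_⟩
  · change z.2 = pp α (z.1 + j) w.1
    rw [e1]; exact hb.2.1
  · change w.2 = PP α (z.1 + j) w.1
    rw [e2]; exact hb.2.2

/-- the two floors of a Hamiltonian path -/
lemma exists_shift (P : HamPath α β) :
    (∃ j : ℤ, ∀ z ∈ Strip, z.1 + j < (P.Φ 0 z).1 ∧ (P.Φ 0 z).1 < z.1 + j + 1) ∧
    (∃ j : ℤ, ∀ z ∈ Strip, z.1 + j < (P.Φ 1 z).1 ∧ (P.Φ 1 z).1 < z.1 + j + 1) := by
  have hcont : ∀ s ∈ Icc (0 : ℝ) 1, ContinuousOn (P.Φ s) Strip := by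
    intro s hs
    exact P.smoothΦ.continuousOn.comp (f := fun z : ℝ × ℝ => (s, z)) (by fun_prop)
      (fun z hz => ⟨hs, hz⟩)
  have m0 : (0 : ℝ) ∈ Icc (0 : ℝ) 1 := ⟨le_refl _, zero_le_one⟩
  have m1 : (1 : ℝ) ∈ Icc (0 : ℝ) 1 := ⟨zero_le_one, le_refl _⟩
  exact ⟨exists_floor (hcont 0 m0) (fun z hz => (P.start z hz).1),
    exists_floor (hcont 1 m1) (fun z hz => (P.finish z hz).1)⟩

end

/-- the smooth step -/
def sg (s : ℝ) : ℝ := Real.smoothTransition s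

lemma sg_smooth : ContDiff ℝ ∞ sg := Real.smoothTransition.contDiff

lemma sg_zero : sg 0 = 0 := Real.smoothTransition.zero_of_nonpos le_rfl

lemma sg_one : sg 1 = 1 := Real.smoothTransition.one_of_one_le le_rfl

lemma sg_mem (s : ℝ) : sg s ∈ Icc (0 : ℝ) 1 :=
  ⟨Real.smoothTransition.nonneg s, Real.smoothTransition.le_one s⟩

lemma sg_hasDerivAt (s : ℝ) : HasDerivAt sg (deriv sg s) s :=
  ((sg_smooth.differentiable (by simp)) s).hasDerivAt

lemma dsg_smooth : ContDiff ℝ ∞ (deriv sg) := (contDiff_infty_iff_deriv.1 sg_smooth).2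

lemma sg_mono : Monotone sg := Real.smoothTransition.monotone

lemma dsg_nonneg (s : ℝ) : 0 ≤ deriv sg s := sg_mono.deriv_nonneg

section
variable {α β : Table}

/-- the normalised path -/
def Pn (P : HamPath α β) (j : ℤ) (s : ℝ) (z : ℝ × ℝ) : ℝ × ℝ := P.Φ (sg s) (z.1 - j, z.2)

/-- the Hamiltonians of the normalised path -/
def Hn (P : HamPath α β) (s : ℝ) (z : ℝ × ℝ) : ℝ := deriv sg s * P.H (sg s) z

lemma XH_const_mul (c : ℝ) (h : ℝ × ℝ → ℝ) (z : ℝ × ℝ) :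
    XH (fun z => c * h z) z = c • XH h z := by
  have : fderiv ℝ (fun z => c * h z) z = c • fderiv ℝ h z := by
    change fderiv ℝ (c • h) z = _
    rw [fderiv_const_smul_field]
    rfl
  simp only [XH, this]
  ext <;> simp

lemma np_of_path (hα : Geo α) (hβ : Geo β) (P : HamPath α β) :
    ∃ j j' : ℤ, NP α β (Pn P j) (Hn P) j' := by
  obtain ⟨⟨j, hj0⟩, ⟨j1, hj1⟩⟩ := exists_shift P
  have hmem : ∀ z ∈ Strip, ((z.1 - j, z.2) : ℝ × ℝ) ∈ Strip := fun z hz => hz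
  refine ⟨j, j1 - j, ⟨?_, ?_, ?_, ?_, ?_, ?_, ?_, ?_, ?_, ?_⟩⟩
  · refine P.smoothΦ.comp (f := fun x : ℝ × (ℝ × ℝ) => (sg x.1, (x.2.1 - (j : ℝ), x.2.2))) ?_ ?_
    · apply ContDiff.contDiffOn
      have := sg_smooth
      apply ContDiff.prodMk
      · exact this.comp contDiff_fst
      · fun_prop
    · intro x hx
      exact ⟨sg_mem _, hx.2⟩
  · have h1 : ContDiffOn ℝ ∞ (fun x : ℝ × (ℝ × ℝ) => P.H (sg x.1) x.2) (univ ×ˢ Strip) := by
      refine P.smoothH.comp (f := fun x : ℝ × (ℝ × ℝ) => (sg x.1, x.2)) ?_ ?_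
      · apply ContDiff.contDiffOn
        have := sg_smooth
        apply ContDiff.prodMk
        · exact this.comp contDiff_fst
        · fun_prop
      · intro x hx
        exact ⟨sg_mem _, hx.2⟩
    have h2 : ContDiffOn ℝ ∞ (fun x : ℝ × (ℝ × ℝ) => deriv sg x.1) (univ ×ˢ Strip) :=
      (dsg_smooth.comp contDiff_fst).contDiffOn
    exact h2.mul h1
  · intro s z hz
    have := P.perΦ (sg s) (sg_mem s) (z.1 - j, z.2) (hmem z hz)
    simp only [Pn]
    rw [← this]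
    congr 2
    ring
  · intro s z hz
    simp only [Hn]
    rw [P.perH (sg s) (sg_mem s) z hz]
  · intro s z hz
    exact (P.bij (sg s) (sg_mem s)).mapsTo (hmem z hz)
  · intro w hw
    obtain ⟨z, hz, e⟩ := (P.bij 0 ⟨le_refl _, zero_le_one⟩).surjOn hw
    refine ⟨(z.1 + j, z.2), hz, ?_⟩
    simp only [Pn, sg_zero, add_sub_cancel_right]
    exact e
  · intro w hw
    obtain ⟨z, hz, e⟩ := (P.bij 1 ⟨zero_le_one, le_refl _⟩).surjOn hw
    refine ⟨(z.1 + j, z.2), hz, ?_⟩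
    simp only [Pn, sg_one, add_sub_cancel_right]
    exact e
  · intro s z hz
    have h1 := P.flow (sg s) (sg_mem s) (z.1 - j, z.2) (hmem z hz)
    have h2 := h1.scomp_hasDerivAt s (sg_hasDerivAt s) (fun t => sg_mem t)
    refine h2.congr_deriv ?_
    change _ = XH (fun z => deriv sg s * P.H (sg s) z) (P.Φ (sg s) (z.1 - j, z.2))
    rw [XH_const_mul]
  · intro z hz
    have h1 := P.start _ (hmem z hz)
    obtain ⟨h2, h3⟩ := hj0 _ (hmem z hz)
    have := st_of_bil hα h1 h2 h3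
    simp only [sub_add_cancel] at this
    simp only [Pn, sg_zero]
    exact this
  · intro z hz
    have h1 := P.finish _ (hmem z hz)
    obtain ⟨h2, h3⟩ := hj1 _ (hmem z hz)
    obtain ⟨-, h4, h5⟩ := h1
    simp only at h2 h3 h4 h5
    simp only [Pn, sg_one]
    refine ⟨?_, ?_, ?_, ?_⟩
    · simp only
      push_cast
      linarith
    · simp only
      push_cast
      linarith
    · exact h4.trans (by simp only [pp_left_sub_int hβ, pp_sub_int hβ])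
    · exact h5.trans (by simp only [PP_left_sub_int hβ, PP_sub_int hβ])

/-- the reversed path -/
lemma NP.reverse {Φ : ℝ → ℝ × ℝ → ℝ × ℝ} {H : ℝ → ℝ × ℝ → ℝ} {j : ℤ} (hα : Geo α) (hβ : Geo β)
    (h : NP α β Φ H j) :
    NP β α (fun s z => Φ (1 - s) (z.1 - j, z.2)) (fun s z => -H (1 - s) z) (-j) := by
  have hm : ContDiffOn ℝ ∞ (fun x : ℝ × (ℝ × ℝ) => (1 - x.1, x.2)) (univ ×ˢ Strip) := by
    apply ContDiff.contDiffOn
    fun_prop
  have hm2 : ContDiffOn ℝ ∞ (fun x : ℝ × (ℝ × ℝ) => (1 - x.1, (x.2.1 - (j : ℝ), x.2.2)))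
      (univ ×ˢ Strip) := by
    apply ContDiff.contDiffOn
    fun_prop
  have hmem : ∀ z ∈ Strip, ((z.1 - j, z.2) : ℝ × ℝ) ∈ Strip := fun z hz => hz
  refine ⟨?_, ?_, ?_, ?_, ?_, ?_, ?_, ?_, ?_, ?_⟩
  · exact h.smoothΦ.comp hm2 (fun x hx => ⟨mem_univ _, hx.2⟩)
  · exact (h.smoothH.comp hm (fun x hx => ⟨mem_univ _, hx.2⟩)).neg
  · intro s z hz
    have := h.perΦ (1 - s) (z.1 - j, z.2) (hmem z hz)
    simp only
    rw [← this]
    congr 2
    ring
  · intro s z hz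
    rw [h.perH (1 - s) z hz]
  · intro s z hz
    exact h.maps (1 - s) _ (hmem z hz)
  · intro w hw
    obtain ⟨z, hz, e⟩ := h.surj1 w hw
    refine ⟨(z.1 + j, z.2), hz, ?_⟩
    simpa using e
  · intro w hw
    obtain ⟨z, hz, e⟩ := h.surj0 w hw
    refine ⟨(z.1 + j, z.2), hz, ?_⟩
    simpa using e
  · intro s z hz
    have h1 := h.flow (1 - s) _ (hmem z hz)
    have h2 : HasDerivAt (fun s : ℝ => 1 - s) (-1) s := by
      simpa using (hasDerivAt_id s).const_sub 1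
    have h3 := h1.scomp s h2
    refine h3.congr_deriv ?_
    have h4 : ∀ w, XH (fun z => -H (1 - s) z) w = (-1 : ℝ) • XH (H (1 - s)) w := by
      intro w
      rw [← XH_const_mul]
      congr 1
      ext z
      ring
    rw [h4]
  · intro z hz
    obtain ⟨h2, h3, h4, h5⟩ := h.finish _ (hmem z hz)
    simp only at h2 h3 h4 h5
    simp only [sub_zero]
    refine ⟨?_, ?_, ?_, ?_⟩
    · linarith
    · linarith
    · exact h4.trans (by simp only [pp_left_sub_int hβ, pp_sub_int hβ])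
    · exact h5.trans (by simp only [PP_left_sub_int hβ, PP_sub_int hβ])
  · intro z hz
    obtain ⟨h2, h3, h4, h5⟩ := h.start _ (hmem z hz)
    simp only at h2 h3 h4 h5
    simp only [sub_self]
    refine ⟨?_, ?_, ?_, ?_⟩
    · simp only
      push_cast
      linarith
    · simp only
      push_cast
      linarith
    · exact h4.trans (by simp only [pp_left_sub_int hα, pp_sub_int hα])
    · exact h5.trans (by simp only [PP_left_sub_int hα, PP_sub_int hα])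

end

end MP43832.Low
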