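import Pool.Agent.Lib.MP_43832e_gt.Low.Pre

set_option linter.all false

/-!
# The one-sided inequality
-/

noncomputable section

namespace MP43832.Low

open Set Filter Topology MeasureTheory
open scoped ContDiff

variable {α β : Table}

lemma XH_congr {g h : ℝ × ℝ → ℝ} {z : ℝ × ℝ} (e : g =ᶠ[𝓝 z] h) : XH g z = XH h z := by
  simp only [XH, e.fderiv_eq]

lemma XH_per {ρ : ℝ} {F : ℝ × (ℝ × ℝ) → ℝ} (hF : Per ρ F) (s : ℝ) (z : ℝ × ℝ) :
    XH (fun z => F (s, z)) z =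
      (fderiv ℝ F (s, z) (0, (0, 1)), -fderiv ℝ F (s, z) (0, (1, 0))) := by
  simp only [XH, (hF.hasFDerivAt s z).fderiv]
  simp

/-- trajectories from the graph of `f'` to almost the fibre over `Q₀` -/
lemma approx (core : SpecCore) (hα : Geo α) (hβ : Geo β) {Φ : ℝ → ℝ × ℝ → ℝ × ℝ}
    {H : ℝ → ℝ × ℝ → ℝ} {j : ℤ} (h : NP α β Φ H j) {f f' : ℝ → ℝ} {p₁ K : ℝ} (h0 : 0 ≤ p₁) (h1 : p₁ < 1)
    (hf : ∀ x, HasDerivAt f (f' x) x) (hK0 : 0 ≤ K) (hK : ∀ x y, |f' x - f' y| ≤ K * |x - y|)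
    (hb : ∀ x, |f' x| ≤ p₁) {p₀ p₂ : ℝ} (g0 : 0 ≤ p₂) (g1 : p₂ < 1) (l1 : p₀ < 1)
    (hst : ∀ z w : ℝ × ℝ, St α z w → |w.2| ≤ p₁ → |z.2| ≤ p₀)
    (hfl : ∀ s ∈ Icc (0 : ℝ) 1, ∀ z : ℝ × ℝ, |z.2| ≤ p₀ → |(Φ s z).2| ≤ p₂) :
    ∃ ρ : ℝ, ρ < 1 ∧ ∀ (Q₀ : ℝ) (M : ℝ → ℝ), ContinuousOn M (Icc 0 1) →
      (∀ s ∈ Icc (0 : ℝ) 1, 0 ≤ M s) →
      (∀ s ∈ Icc (0 : ℝ) 1, ∀ z : ℝ × ℝ, |z.2| ≤ ρ → -H s z ≤ M s) →
      ∀ ε : ℝ, 0 < ε → ∃ w : ℝ × ℝ, |w.2| ≤ p₀ ∧ (Φ 0 w).2 = f' (Φ 0 w).1 ∧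
        |(Φ 1 w).1 - Q₀| ≤ ε ∧
        f (Φ 0 w).1 + act Φ H w ≤ f Q₀ + (∫ s in (0 : ℝ)..1, M s) + ε := by
  obtain ⟨ρ, F, hρ0, hρ1, hF, hFH, hFc⟩ := exists_cut h.smoothH h.perH g0 g1
  obtain ⟨C, ℓ, hC, hℓ, hn⟩ := hF.nice
  refine ⟨ρ, hρ1, fun Q₀ M hM hM0 hM1 ε hε => ?_⟩
  have hmem : ∀ x, ((x, f' x) : ℝ × ℝ) ∈ Strip := fun x =>
    abs_lt.1 (lt_of_le_of_lt (hb x) h1)
  choose w hw1 hw2 using fun x => h.surj0 _ (hmem x)
  have hw3 : ∀ x, |(w x).2| ≤ p₀ := by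
    intro x
    apply hst _ _ (h.start _ (hw1 x))
    rw [hw2]
    exact hb x
  have hXH : ∀ s ∈ Icc (0 : ℝ) 1, ∀ x, XH (H s) (Φ s (w x)) =
      (fderiv ℝ F (s, Φ s (w x)) (0, (0, 1)), -fderiv ℝ F (s, Φ s (w x)) (0, (1, 0))) := by
    intro s hs x
    rw [← XH_per hF, XH_congr (hFH s _ (hfl s hs _ (hw3 x)))]
  obtain ⟨x, hx1, hx2⟩ := core (fun s z => F (s, z)) (fun s z => fderiv ℝ F (s, z) (0, (1, 0)))
    (fun s z => fderiv ℝ F (s, z) (0, (0, 1))) (C + 1) (ℓ + K)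
    (fun s hs => Nice.mono (hn s hs) (by linarith) (by linarith))
    hF.smooth.continuous.continuousOn (hF.deriv (1, 0)).smooth.continuous.continuousOn
    (hF.deriv (0, 1)).smooth.continuous.continuousOn f f' hf
    (fun x => (hb x).trans (by linarith))
    (fun x y => (hK x y).trans (mul_le_mul_of_nonneg_right (by linarith) (abs_nonneg _)))
    Q₀ M hM (fun s hs z => by
      obtain ⟨c, hc, e, hc2⟩ := hFc s z
      rw [e]
      by_cases hz : ρ < |z.2|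
      · rw [hc2 hz]
        simpa using hM0 s hs
      · push Not at hz
        have a1 := hM1 s hs z hz
        have a2 := hM0 s hs
        have a3 : c * (-H s z) ≤ c * M s := mul_le_mul_of_nonneg_left a1 hc.1
        have a4 : c * M s ≤ 1 * M s := mul_le_mul_of_nonneg_right hc.2 a2
        linarith)
    (fun s x => Φ s (w x)) hw2 (fun s hs x => by
      have a1 := (h.flow s (w x) (hw1 x)).hasDerivWithinAt (s := Icc 0 1)
      rw [hXH s hs x] at a1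
      exact a1) ε hε
  refine ⟨w x, hw3 x, by rw [hw2], hx1, ?_⟩
  have e1 : act Φ H (w x) = ∫ s in (0 : ℝ)..1, ((Φ s (w x)).2 *
      fderiv ℝ F (s, Φ s (w x)) (0, (0, 1)) - F (s, Φ s (w x))) := by
    unfold act
    apply intervalIntegral.integral_congr
    intro s hs
    rw [uIcc_of_le zero_le_one] at hs
    simp only
    rw [hXH s hs x]
    have := (hFH s _ (hfl s hs _ (hw3 x))).eq_of_nhds
    rw [← this]
  rw [hw2, e1]
  exact hx2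

/-- the limit of the trajectories of `approx` -/
lemma limit (hα : Geo α) (hβ : Geo β) {Φ : ℝ → ℝ × ℝ → ℝ × ℝ}
    {H : ℝ → ℝ × ℝ → ℝ} {j : ℤ} (h : NP α β Φ H j) {κ : ℝ}
    (hκ : ∀ w ∈ Strip, act Φ H w = len β w.1 (Φ 1 w).1 - len α w.1 (Φ 0 w).1 + κ)
    {f f' : ℝ → ℝ} {p₀ c Q₀ : ℝ} (cf : Continuous f) (cf' : Continuous f') (l1 : p₀ < 1)
    (hw : ∀ ε : ℝ, 0 < ε → ∃ w : ℝ × ℝ, |w.2| ≤ p₀ ∧ (Φ 0 w).2 = f' (Φ 0 w).1 ∧
      |(Φ 1 w).1 - Q₀| ≤ ε ∧ f (Φ 0 w).1 + act Φ H w ≤ c + ε) :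
    ∃ w ∈ Strip, (Φ 0 w).2 = f' (Φ 0 w).1 ∧ (Φ 1 w).1 = Q₀ ∧ f (Φ 0 w).1 + act Φ H w ≤ c := by
  have hstrip : ∀ w : ℝ × ℝ, |w.2| ≤ p₀ → w ∈ Strip := fun w hw =>
    abs_lt.1 (lt_of_le_of_lt hw l1)
  choose w hw0 hw1 hw2 hw3 using fun n : ℕ => hw (1 / ((n : ℝ) + 1)) (by positivity)
  have hle : ∀ n : ℕ, 1 / ((n : ℝ) + 1) ≤ 1 := by
    intro n
    rw [div_le_one (by positivity)]
    have : (0 : ℝ) ≤ n := Nat.cast_nonneg n
    linarith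
  have hcomp : IsCompact (Icc (Q₀ - j - 2) (Q₀ - j + 1) ×ˢ Icc (-p₀) p₀) :=
    isCompact_Icc.prod isCompact_Icc
  have hmem : ∀ n, w n ∈ Icc (Q₀ - j - 2) (Q₀ - j + 1) ×ˢ Icc (-p₀) p₀ := by
    intro n
    refine ⟨?_, abs_le.1 (hw0 n)⟩
    obtain ⟨a1, a2, -, -⟩ := h.finish _ (hstrip _ (hw0 n))
    obtain ⟨a3, a4⟩ := abs_le.1 ((hw2 n).trans (hle n))
    simp only at a1 a2
    constructor <;> linarith
  obtain ⟨v, hv, φ, hφ, hlim⟩ := hcomp.tendsto_subseq hmem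
  have hvs : v ∈ Strip := hstrip v (abs_le.2 hv.2)
  have hΦc : ∀ s, ContinuousAt (Φ s) v := by
    intro s
    have : ContinuousOn (Φ s) Strip := h.smoothΦ.continuousOn.comp (f := fun z : ℝ × ℝ => (s, z))
      (by fun_prop) (fun z hz => ⟨mem_univ _, hz⟩)
    exact this.continuousAt (isOpen_Strip.mem_nhds hvs)
  have t0 : Tendsto (fun n => Φ 0 (w (φ n))) atTop (𝓝 (Φ 0 v)) := (hΦc 0).tendsto.comp hlim
  have t1 : Tendsto (fun n => Φ 1 (w (φ n))) atTop (𝓝 (Φ 1 v)) := (hΦc 1).tendsto.comp hlim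
  have tε : Tendsto (fun n => 1 / ((φ n : ℝ) + 1)) atTop (𝓝 0) :=
    (tendsto_one_div_add_atTop_nhds_zero_nat (𝕜 := ℝ)).comp hφ.tendsto_atTop
  have t01 : Tendsto (fun n => (Φ 0 (w (φ n))).1) atTop (𝓝 (Φ 0 v).1) :=
    (continuous_fst.tendsto _).comp t0
  have t02 : Tendsto (fun n => (Φ 0 (w (φ n))).2) atTop (𝓝 (Φ 0 v).2) :=
    (continuous_snd.tendsto _).comp t0
  have t11 : Tendsto (fun n => (Φ 1 (w (φ n))).1) atTop (𝓝 (Φ 1 v).1) :=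
    (continuous_fst.tendsto _).comp t1
  have tw1 : Tendsto (fun n => (w (φ n)).1) atTop (𝓝 v.1) :=
    (continuous_fst.tendsto _).comp hlim
  refine ⟨v, hvs, ?_, ?_, ?_⟩
  · have := (cf'.tendsto _).comp t01
    refine tendsto_nhds_unique t02 (this.congr fun n => ?_)
    exact (hw1 (φ n)).symm
  · have a1 : Tendsto (fun n => |(Φ 1 (w (φ n))).1 - Q₀|) atTop (𝓝 |(Φ 1 v).1 - Q₀|) :=
      (t11.sub_const Q₀).abs
    have a2 := le_of_tendsto_of_tendsto' a1 tε (fun n => hw2 (φ n))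
    have a3 := abs_nonneg ((Φ 1 v).1 - Q₀)
    have a4 : |(Φ 1 v).1 - Q₀| = 0 := le_antisymm a2 a3
    linarith [abs_eq_zero.1 a4]
  · have clen : ∀ γ : Table, Continuous (fun x : ℝ × ℝ => len γ x.1 x.2) := by
      intro γ
      have := γ.smooth.continuous
      unfold len
      fun_prop
    have hact : Tendsto (fun n => act Φ H (w (φ n))) atTop (𝓝 (act Φ H v)) := by
      rw [hκ v hvs]
      have b1 : Tendsto (fun n => len β (w (φ n)).1 (Φ 1 (w (φ n))).1) atTop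
          (𝓝 (len β v.1 (Φ 1 v).1)) :=
        ((clen β).tendsto (v.1, (Φ 1 v).1)).comp (tw1.prodMk_nhds t11)
      have b2 : Tendsto (fun n => len α (w (φ n)).1 (Φ 0 (w (φ n))).1) atTop
          (𝓝 (len α v.1 (Φ 0 v).1)) :=
        ((clen α).tendsto (v.1, (Φ 0 v).1)).comp (tw1.prodMk_nhds t01)
      refine ((b1.sub b2).add_const κ).congr fun n => ?_
      exact (hκ _ (hstrip _ (hw0 (φ n)))).symm
    have a1 := ((cf.tendsto _).comp t01).add hact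
    have a2 : Tendsto (fun n => c + 1 / ((φ n : ℝ) + 1)) atTop (𝓝 (c + 0)) := tε.const_add c
    rw [add_zero] at a2
    exact le_of_tendsto_of_tendsto' a1 a2 (fun n => hw3 (φ n))

/-- the one-sided inequality -/
lemma one (core : SpecCore) (hα : Geo α) (hβ : Geo β) {Φ : ℝ → ℝ × ℝ → ℝ × ℝ}
    {H : ℝ → ℝ × ℝ → ℝ} {j : ℤ} (h : NP α β Φ H j) {κ : ℝ}
    (hκ : ∀ w ∈ Strip, act Φ H w = len β w.1 (Φ 1 w).1 - len α w.1 (Φ 0 w).1 + κ)
    {q Q₀ : ℝ} (h1 : q < Q₀) (h2 : Q₀ < q + 1) :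
    ∃ ρ : ℝ, ρ < 1 ∧ ∀ M : ℝ → ℝ, ContinuousOn M (Icc 0 1) →
      (∀ s ∈ Icc (0 : ℝ) 1, 0 ≤ M s) →
      (∀ s ∈ Icc (0 : ℝ) 1, ∀ z : ℝ × ℝ, |z.2| ≤ ρ → -H s z ≤ M s) →
      len β q Q₀ - len α q Q₀ + κ ≤ ∫ s in (0 : ℝ)..1, M s := by
  -- the point `x` with `pp α q x = pp β q Q₀`
  have hv : ((q, pp β q Q₀) : ℝ × ℝ) ∈ Strip := abs_lt.1 (hβ.abs_pp q Q₀ h1 h2)
  obtain ⟨y1, y2, y3, -⟩ := h.start _ hv
  set X := (Φ 0 (q, pp β q Q₀)).1 with hX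
  simp only at y1 y2 y3
  -- a radius
  obtain ⟨r, hr, hr1, hr2⟩ : ∃ r : ℝ, 0 < r ∧ q < Q₀ - r ∧ Q₀ + r < q + 1 := by
    refine ⟨min (Q₀ - q) (q + 1 - Q₀) / 2, ?_, ?_, ?_⟩
    · have : 0 < min (Q₀ - q) (q + 1 - Q₀) := lt_min (by linarith) (by linarith)
      linarith
    · have := min_le_left (Q₀ - q) (q + 1 - Q₀)
      linarith
    · have := min_le_right (Q₀ - q) (q + 1 - Q₀)
      linarith
  have hlp : 0 < len α q Q₀ := hα.pos q Q₀ h1 h2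
  obtain ⟨A, hA0, hA1, hA2, hA3⟩ : ∃ A : ℝ, q < A ∧ A ≤ Q₀ - r ∧ A ≤ X ∧
      A - q ≤ len α q Q₀ / 2 := by
    refine ⟨min (min (Q₀ - r) X) (q + len α q Q₀ / 2), lt_min (lt_min hr1 y1) (by linarith),
      (min_le_left _ _).trans (min_le_left _ _), (min_le_left _ _).trans (min_le_right _ _), ?_⟩
    have := min_le_right (min (Q₀ - r) X) (q + len α q Q₀ / 2)
    linarith
  obtain ⟨B, hB0, hB1, hB2, hB3⟩ : ∃ B : ℝ, B < q + 1 ∧ Q₀ + r ≤ B ∧ X ≤ B ∧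
      q + 1 - B ≤ len α q Q₀ / 2 := by
    refine ⟨max (max (Q₀ + r) X) (q + 1 - len α q Q₀ / 2), max_lt (max_lt hr2 y2) (by linarith),
      (le_max_left _ _).trans (le_max_left _ _), (le_max_right _ _).trans (le_max_left _ _), ?_⟩
    have := le_max_right (max (Q₀ + r) X) (q + 1 - len α q Q₀ / 2)
    linarith
  -- the truncation level
  have hPc : ContinuousOn (fun y => PP α q y) (Icc A B) := by
    refine hα.smooth_PP.continuousOn.comp (f := fun y : ℝ => (q, y)) (by fun_prop) ?_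
    intro y hy
    exact ⟨by have := hy.1; simp only; linarith, by have := hy.2; simp only; linarith⟩
  obtain ⟨m, hm, hmax⟩ := (isCompact_Icc (a := A) (b := B)).exists_isMaxOn
    (nonempty_Icc.2 (by linarith)) hPc.abs
  have hm1 : |PP α q m| < 1 := hα.abs_PP q m (by linarith [hm.1]) (by linarith [hm.2])
  obtain ⟨pa, pa0, pa1, hpa⟩ := near_bd hα hβ hr
  obtain ⟨p₁, hp1, hp1'⟩ : ∃ p₁, max (max pa |PP α q m|) (1 - len α q Q₀ / 2) < p₁ ∧ p₁ < 1 :=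
    exists_between (max_lt (max_lt pa1 hm1) (by linarith))
  have hpm : ∀ y ∈ Icc A B, |PP α q y| < p₁ := fun y hy =>
    lt_of_le_of_lt (hmax hy) (lt_of_le_of_lt ((le_max_right _ _).trans (le_max_left _ _)) hp1)
  have hpap : pa < p₁ := lt_of_le_of_lt ((le_max_left _ _).trans (le_max_left _ _)) hp1
  have hplen : 1 - len α q Q₀ / 2 < p₁ := lt_of_le_of_lt (le_max_right _ _) hp1
  have hp10 : 0 ≤ p₁ := by linarith
  obtain ⟨f', K, hK0, hK, hfb, hfi, hfe, a, b, ab1, ab2, ab3, ab4, ab5, ab6, ab7⟩ :=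
    exists_f' hα hA0 (by linarith) hB0 hp10 hp1' (fun y hy => (hpm y hy).le)
  have cf' : Continuous f' := by
    apply (LipschitzWith.of_dist_le_mul (K := ⟨K, hK0⟩) _).continuous
    intro x y
    rw [Real.dist_eq, Real.dist_eq]
    exact hK x y
  obtain ⟨f, hf, hf0⟩ := exists_prim cf' Q₀ (len α q Q₀)
  have cf : Continuous f := continuous_iff_continuousAt.2 fun x => (hf x).continuousAt
  have hshift : f (Q₀ + j) ≤ f Q₀ := by
    apply f_shift (Q₀ := Q₀) (a := a) (b := b) (p₁ := p₁) hα hf ab1 _ _ ab4 ab5 ab6 ab7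
    all_goals linarith
  obtain ⟨p₀, b0, b1, hb⟩ := start_cpt hα hp1'
  obtain ⟨p₂, c0, c1, hc⟩ := flow_cpt h b0 b1
  obtain ⟨ρ, hρ, key⟩ := approx core hα hβ h hp10 hp1' hf hK0 hK hfb c0 c1 b1 hb hc
  refine ⟨ρ, hρ, fun M hM hM0 hM1 => ?_⟩
  obtain ⟨w, hws, hw1, hw2, hw3⟩ := limit hα hβ h hκ cf cf' b1 (key (Q₀ + j) M hM hM0 hM1)
  obtain ⟨s1, s2, s3, s4⟩ := h.start w hws
  obtain ⟨t1, t2, t3, t4⟩ := h.finish w hws
  simp only at t1 t2 t3 t4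
  have hw2' : (Φ 1 w).1 - j = Q₀ := by rw [hw2]; ring
  have hlt : |f' (Φ 0 w).1| < p₁ := by
    rcases lt_or_eq_of_le (hfb (Φ 0 w).1) with hh | hh
    · exact hh
    · exfalso
      have d1 : |(Φ 1 w).1 - j - (Φ 0 w).1| < r := by
        apply hpa _ _ _ (h.start w hws) (h.finish w hws)
        rw [hw1, hh]
        exact hpap.le
      rw [hw2', abs_lt] at d1
      have d2 : (Φ 0 w).1 ∈ Icc A B := ⟨by linarith [d1.2], by linarith [d1.1]⟩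
      rw [hfe _ d2] at hh
      exact absurd (hpm _ d2) (by rw [hh]; exact lt_irrefl _)
  obtain ⟨d1, d2, d3⟩ := hfi _ hlt
  have d4 : w.1 = q := by
    apply PP_inj hα s1 s2 d1 d2
    rw [← s4, hw1, d3]
  have d5 : (Φ 0 w).1 = X := by
    apply pp_inj hα d1 d2 y1 y2
    rw [← y3, ← d4, ← s3, t3, hw2']
  have d6 : f X = len α q X := by
    have e1 : ∀ x ∈ uIcc Q₀ X, x ∈ Icc A B := by
      intro x hx
      have := (uIcc_subset_Icc (a₁ := Q₀) (b₁ := X) (a₂ := A) (b₂ := B)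
        ⟨by linarith, by linarith⟩ ⟨hA2, hB2⟩) hx
      exact this
    have e2 : ∫ x in Q₀..X, f' x = f X - f Q₀ :=
      intervalIntegral.integral_eq_sub_of_hasDerivAt (fun x _ => hf x)
        (cf'.intervalIntegrable _ _)
    have e3 : ∫ x in Q₀..X, f' x = len α q X - len α q Q₀ := by
      refine intervalIntegral.integral_eq_sub_of_hasDerivAt (fun x hx => ?_)
        (cf'.intervalIntegrable _ _)
      have e4 := e1 x hx
      rw [hfe x e4]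
      have e5 := (hα.der q x (by linarith [e4.1]) (by linarith [e4.2])).comp_hasDerivAt x
        ((hasDerivAt_const x q).prodMk (hasDerivAt_id x))
      refine e5.congr_deriv ?_
      simp
    rw [e2, hf0] at e3
    linarith
  have d7 : len β q (Q₀ + j) = len β q Q₀ := by
    have := len_sub_int hβ q (Q₀ + j) j
    rw [add_sub_cancel_right] at this
    exact this.symm
  rw [hκ w hws, d5, d4, hw2, d6, d7] at hw3
  rw [hf0] at hshift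
  linarith

end MP43832.Low
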