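import Pool.Agent.Lib.MP_43832e_gt.Low.Kappa
import Pool.Agent.Lib.MP_43832e_gt.Low.Cut

set_option linter.all false

/-!
# Preparations for the one-sided inequality
-/

noncomputable section

namespace MP43832.Low

open Set Filter Topology MeasureTheory
open scoped ContDiff

variable {α β : Table}

/-- near the boundary the time one map is close to the identity in the first variable -/
lemma near_bd (hα : Geo α) (hβ : Geo β) {r : ℝ} (hr : 0 < r) :
    ∃ p₁ : ℝ, 0 ≤ p₁ ∧ p₁ < 1 ∧ ∀ z w w' : ℝ × ℝ, St α z w → St β z w' → p₁ ≤ |w.2| →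
      |w'.1 - w.1| < r := by
  obtain ⟨ε₁, a1, b1⟩ := pp_near_one hβ hr
  obtain ⟨δ₁, a2, b2⟩ := hα.near_left ε₁ a1
  obtain ⟨ε₂, a3, b3⟩ := PP_near_one hα (r := min δ₁ r) (lt_min a2 hr)
  obtain ⟨ε₁', a1', b1'⟩ := pp_near_neg hβ hr
  obtain ⟨δ₁', a2', b2'⟩ := hα.near_right ε₁' a1'
  obtain ⟨ε₂', a3', b3'⟩ := PP_near_neg hα (r := min δ₁' r) (lt_min a2' hr)
  have hm : 0 < min ε₂ ε₂' := lt_min a3 a3'
  refine ⟨max 0 (1 - min ε₂ ε₂' / 2), le_max_left _ _, max_lt one_pos (by linarith), ?_⟩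
  rintro ⟨q, p⟩ ⟨x, y⟩ ⟨Q, P⟩ ⟨c1, c2, c3, c4⟩ ⟨d1, d2, d3, d4⟩ hy
  simp only at *
  have hy2 : 1 - min ε₂ ε₂' / 2 ≤ |y| := (le_max_right _ _).trans hy
  rcases le_or_gt 0 y with hy0 | hy0
  · rw [abs_of_nonneg hy0] at hy2
    have e1 : x < q + min δ₁ r := by
      apply b3 q x c1 c2
      rw [← c4]
      have := min_le_left ε₂ ε₂'
      linarith
    have e2 : 1 - ε₁ < pp α q x := (b2 q x c1 c2 (by linarith [min_le_left δ₁ r])).1
    have e3 : Q < q + r := by
      apply b1 q Q d1 d2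
      rw [← d3, c3]
      exact e2
    have e4 : x < q + r := by linarith [min_le_right δ₁ r]
    rw [abs_lt]
    constructor <;> linarith
  · rw [abs_of_neg hy0] at hy2
    have e1 : q + 1 - min δ₁' r < x := by
      apply b3' q x c1 c2
      rw [← c4]
      have := min_le_right ε₂ ε₂'
      linarith
    have e2 : pp α q x < -1 + ε₁' := (b2' q x c1 c2 (by linarith [min_le_left δ₁' r])).1
    have e3 : q + 1 - r < Q := by
      apply b1' q Q d1 d2
      rw [← d3, c3]
      exact e2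
    have e4 : q + 1 - r < x := by linarith [min_le_right δ₁' r]
    rw [abs_lt]
    constructor <;> linarith

/-- the preimages of compact annuli under the billiard ball map -/
lemma start_cpt (hα : Geo α) {p₁ : ℝ} (h1 : p₁ < 1) :
    ∃ p₀ : ℝ, 0 ≤ p₀ ∧ p₀ < 1 ∧ ∀ z w : ℝ × ℝ, St α z w → |w.2| ≤ p₁ → |z.2| ≤ p₀ := by
  obtain ⟨δ, a1, b1⟩ := hα.near_left (1 - p₁) (by linarith)
  obtain ⟨ε, a2, b2⟩ := pp_near_one hα a1
  obtain ⟨δ', a1', b1'⟩ := hα.near_right (1 - p₁) (by linarith)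
  obtain ⟨ε', a2', b2'⟩ := pp_near_neg hα a1'
  have hm : 0 < min ε ε' := lt_min a2 a2'
  refine ⟨max 0 (1 - min ε ε' / 2), le_max_left _ _, max_lt one_pos (by linarith), ?_⟩
  rintro ⟨q, p⟩ ⟨x, y⟩ ⟨c1, c2, c3, c4⟩ hy
  simp only at *
  by_contra hcon
  push Not at hcon
  have hy2 : 1 - min ε ε' / 2 ≤ |p| := (le_max_right _ _).trans hcon.le
  obtain ⟨hy3, hy4⟩ := abs_le.1 hy
  rcases le_or_gt 0 p with hy0 | hy0
  · rw [abs_of_nonneg hy0] at hy2
    have e1 : x < q + δ := by
      apply b2 q x c1 c2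
      rw [← c3]
      have := min_le_left ε ε'
      linarith
    have e2 := (b1 q x c1 c2 e1).2
    rw [← c4] at e2
    linarith
  · rw [abs_of_neg hy0] at hy2
    have e1 : q + 1 - δ' < x := by
      apply b2' q x c1 c2
      rw [← c3]
      have := min_le_right ε ε'
      linarith
    have e2 := (b1' q x c1 c2 e1).2
    rw [← c4] at e2
    linarith

/-- the tracks of compact annuli -/
lemma flow_cpt {Φ : ℝ → ℝ × ℝ → ℝ × ℝ} {H : ℝ → ℝ × ℝ → ℝ} {j : ℤ} (h : NP α β Φ H j) {p₀ : ℝ}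
    (h0 : 0 ≤ p₀) (h1 : p₀ < 1) : ∃ p₂ : ℝ, 0 ≤ p₂ ∧ p₂ < 1 ∧ ∀ s ∈ Icc (0 : ℝ) 1,
      ∀ z : ℝ × ℝ, |z.2| ≤ p₀ → |(Φ s z).2| ≤ p₂ := by
  have hcomp : IsCompact (Icc (0 : ℝ) 1 ×ˢ (Icc (0 : ℝ) 1 ×ˢ Icc (-p₀) p₀)) :=
    isCompact_Icc.prod (isCompact_Icc.prod isCompact_Icc)
  have hsub : (Icc (0 : ℝ) 1 ×ˢ (Icc (0 : ℝ) 1 ×ˢ Icc (-p₀) p₀)) ⊆ univ ×ˢ Strip := by
    rintro ⟨s, q, p⟩ ⟨-, -, c1, c2⟩
    exact ⟨mem_univ _, by simp only at c1 ⊢; linarith, by simp only at c2 ⊢; linarith⟩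
  have hc : ContinuousOn (fun x : ℝ × (ℝ × ℝ) => |(Φ x.1 x.2).2|)
      (Icc (0 : ℝ) 1 ×ˢ (Icc (0 : ℝ) 1 ×ˢ Icc (-p₀) p₀)) :=
    (continuous_snd.comp_continuousOn (h.smoothΦ.continuousOn.mono hsub)).abs
  obtain ⟨m, hm, hmax⟩ := hcomp.exists_isMaxOn
    ⟨(0, (0, 0)), ⟨⟨le_refl _, zero_le_one⟩, ⟨le_refl _, zero_le_one⟩, by simpa using h0, h0⟩⟩ hc
  have hm2 := h.maps m.1 m.2 (hsub hm).2
  refine ⟨|(Φ m.1 m.2).2|, abs_nonneg _, abs_lt.2 hm2, ?_⟩
  rintro s hs ⟨q, p⟩ hz
  have hz' : ∀ q : ℝ, ((q, p) : ℝ × ℝ) ∈ Strip := fun q => abs_lt.1 (lt_of_le_of_lt hz h1)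
  have hper : Function.Periodic (fun q => (Φ s (q, p)).2) 1 := by
    intro q
    simp only
    rw [h.perΦ s (q, p) (hz' q)]
  have e1 : (Φ s (q, p)).2 = (Φ s (Int.fract q, p)).2 := by
    have := hper.sub_int_mul_eq (x := q) ⌊q⌋
    rw [mul_one] at this
    exact this.symm
  rw [e1]
  exact hmax (show (s, (Int.fract q, p)) ∈ _ from
    ⟨hs, ⟨Int.fract_nonneg q, (Int.fract_lt_one q).le⟩, abs_le.1 hz⟩)

/-- the truncated derivative -/
lemma exists_f' (hα : Geo α) {q A B p₁ : ℝ} (hA : q < A) (hAB : A ≤ B) (hB : B < q + 1)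
    (hp0 : 0 ≤ p₁) (hp1 : p₁ < 1) (hp : ∀ y ∈ Icc A B, |PP α q y| ≤ p₁) :
    ∃ (f' : ℝ → ℝ) (K : ℝ), 0 ≤ K ∧ (∀ x y, |f' x - f' y| ≤ K * |x - y|) ∧
      (∀ x, |f' x| ≤ p₁) ∧ (∀ x, |f' x| < p₁ → q < x ∧ x < q + 1 ∧ f' x = PP α q x) ∧
      (∀ x ∈ Icc A B, f' x = PP α q x) ∧
      ∃ a b : ℝ, q < a ∧ a ≤ A ∧ B ≤ b ∧ b < q + 1 ∧ (∀ x ≤ a, 0 ≤ f' x) ∧
        (∀ x, b ≤ x → f' x ≤ 0) ∧ (∀ x ∈ Icc a b, |f' x - PP α q x| ≤ 1 - p₁) := by
  obtain ⟨δ, a1, b1⟩ := hα.near_left (1 - p₁) (by linarith)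
  obtain ⟨δ', a1', b1'⟩ := hα.near_right (1 - p₁) (by linarith)
  obtain ⟨a, ha1, ha2⟩ : ∃ a, q < a ∧ a < min (q + δ) A := exists_between (lt_min (by linarith) hA)
  obtain ⟨b, hb1, hb2⟩ : ∃ b, max (q + 1 - δ') B < b ∧ b < q + 1 :=
    exists_between (max_lt (by linarith) hB)
  have ha3 : a < A := lt_of_lt_of_le ha2 (min_le_right _ _)
  have hb3 : B < b := lt_of_le_of_lt (le_max_right _ _) hb1
  have hab : a < b := by linarith
  have ha4 : p₁ < PP α q a := by
    have := (b1 q a ha1 (by linarith) (lt_of_lt_of_le ha2 (min_le_left _ _))).2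
    linarith
  have hb4 : PP α q b < -p₁ := by
    have := (b1' q b (by linarith) hb2 (lt_of_le_of_lt (le_max_left _ _) hb1)).2
    linarith
  have hsm : ContDiffOn ℝ 1 (fun y => PP α q y) (Icc a b) := by
    refine (hα.smooth_PP.of_le (by exact_mod_cast le_top)).comp (f := fun y : ℝ => (q, y)) ?_ ?_
    · exact (contDiff_const.prodMk contDiff_id).contDiffOn
    · intro y hy
      exact ⟨by have := hy.1; simp only; linarith, by have := hy.2; simp only; linarith⟩
  obtain ⟨K, hK⟩ := hsm.exists_lipschitzOnWith (by norm_num) (convex_Icc _ _) isCompact_Icc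
  set pr : ℝ → ℝ := fun x => max a (min b x) with hpr
  have hprm : ∀ x, pr x ∈ Icc a b := fun x => ⟨le_max_left _ _, max_le hab.le (min_le_left _ _)⟩
  have hprl : ∀ x y, |pr x - pr y| ≤ |x - y| := by
    intro x y
    refine (abs_max_sub_max_le_max _ _ _ _).trans ?_
    rw [sub_self, abs_zero]
    refine max_le (abs_nonneg _) ?_
    refine (abs_min_sub_min_le_max _ _ _ _).trans ?_
    rw [sub_self, abs_zero]
    exact max_le (abs_nonneg _) le_rfl
  refine ⟨fun x => max (-p₁) (min p₁ (PP α q (pr x))), K, K.2, ?_, ?_, ?_, ?_, a, b, ha1,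
    ha3.le, hb3.le, hb2, ?_, ?_, ?_⟩
  · intro x y
    refine (abs_max_sub_max_le_max _ _ _ _).trans ?_
    rw [sub_self, abs_zero]
    refine max_le (by positivity) ?_
    refine (abs_min_sub_min_le_max _ _ _ _).trans ?_
    rw [sub_self, abs_zero]
    refine max_le (by positivity) ?_
    have := hK.dist_le_mul (pr x) (hprm x) (pr y) (hprm y)
    rw [Real.dist_eq, Real.dist_eq] at this
    exact this.trans (mul_le_mul_of_nonneg_left (hprl x y) K.2)
  · intro x
    rw [abs_le]
    exact ⟨le_max_left _ _, max_le (by linarith) (min_le_left _ _)⟩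
  · intro x hx
    rw [abs_lt] at hx
    obtain ⟨h1, h2⟩ := hx
    have h3 : -p₁ < min p₁ (PP α q (pr x)) := by
      rcases lt_max_iff.1 h1 with h | h
      · exact absurd h (lt_irrefl _)
      · exact h
    have h4 : -p₁ < PP α q (pr x) := lt_of_lt_of_le h3 (min_le_right _ _)
    have h5 : min p₁ (PP α q (pr x)) < p₁ := lt_of_le_of_lt (le_max_right _ _) h2
    have h6 : PP α q (pr x) < p₁ := by
      rcases min_lt_iff.1 h5 with h | h
      · exact absurd h (lt_irrefl _)
      · exact h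
    have h7 : a < x := by
      by_contra hcon
      push Not at hcon
      have : pr x = a := by
        simp only [hpr]
        rw [min_eq_right (by linarith), max_eq_left hcon]
      rw [this] at h6
      linarith
    have h8 : x < b := by
      by_contra hcon
      push Not at hcon
      have : pr x = b := by
        simp only [hpr]
        rw [min_eq_left hcon, max_eq_right hab.le]
      rw [this] at h4
      linarith
    have h9 : pr x = x := by
      simp only [hpr]
      rw [min_eq_right h8.le, max_eq_right h7.le]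
    refine ⟨by linarith, by linarith, ?_⟩
    simp only
    rw [h9] at h4 h6 ⊢
    rw [min_eq_right h6.le, max_eq_right h4.le]
  · intro x hx
    have h9 : pr x = x := by
      simp only [hpr]
      rw [min_eq_right (by linarith [hx.2]), max_eq_right (by linarith [hx.1])]
    simp only
    rw [h9]
    obtain ⟨h1, h2⟩ := abs_le.1 (hp x hx)
    rw [min_eq_right h2, max_eq_right h1]
  · intro x hx
    have : pr x = a := by
      simp only [hpr]
      rw [min_eq_right (by linarith), max_eq_left hx]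
    simp only
    rw [this, min_eq_left ha4.le]
    exact hp0.trans (le_max_right _ _)
  · intro x hx
    have : pr x = b := by
      simp only [hpr]
      rw [min_eq_left hx, max_eq_right hab.le]
    simp only
    rw [this, min_eq_right (by linarith), max_eq_left hb4.le]
    linarith
  · intro x hx
    have h9 : pr x = x := by
      simp only [hpr]
      rw [min_eq_right hx.2, max_eq_right hx.1]
    simp only
    rw [h9]
    obtain ⟨h1, h2⟩ := abs_lt.1 (hα.abs_PP q x (by linarith [hx.1]) (by linarith [hx.2]))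
    rw [abs_le]
    rcases le_total p₁ (PP α q x) with h3 | h3
    · rw [min_eq_left h3, max_eq_right (by linarith)]
      constructor <;> linarith
    · rw [min_eq_right h3]
      rcases le_total (-p₁) (PP α q x) with h4 | h4
      · rw [max_eq_right h4]
        constructor <;> linarith
      · rw [max_eq_left h4]
        constructor <;> linarith

/-- the value of the primitive at the other lifts is smaller -/
lemma f_shift (hα : Geo α) {q Q₀ a b p₁ : ℝ} {f f' : ℝ → ℝ} (hf : ∀ x, HasDerivAt f (f' x) x)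
    (h1 : q < a) (h2 : a ≤ Q₀) (h3 : Q₀ ≤ b) (h4 : b < q + 1) (hfa : ∀ x ≤ a, 0 ≤ f' x)
    (hfb : ∀ x, b ≤ x → f' x ≤ 0) (hfc : ∀ x ∈ Icc a b, |f' x - PP α q x| ≤ 1 - p₁)
    (ha : a - q ≤ len α q Q₀ / 2) (hb : q + 1 - b ≤ len α q Q₀ / 2)
    (hp : 1 - p₁ ≤ len α q Q₀ / 2) (hp1 : p₁ ≤ 1) (j : ℤ) : f (Q₀ + j) ≤ f Q₀ := by
  have hlen : ∀ x ∈ Icc a b, HasDerivAt (fun x => len α q x) (PP α q x) x := by
    intro x hx
    have e5 := (hα.der q x (by linarith [hx.1]) (by linarith [hx.2])).comp_hasDerivAt x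
      ((hasDerivAt_const x q).prodMk (hasDerivAt_id x))
    refine e5.congr_deriv ?_
    simp
  have hcf : Continuous f := continuous_iff_continuousAt.2 fun x => (hf x).continuousAt
  rcases lt_trichotomy j 0 with hj | hj | hj
  · have hj2 : (j : ℝ) ≤ -1 := by
      have : j ≤ -1 := by omega
      exact_mod_cast this
    have m1 : MonotoneOn f (Iic a) := by
      apply monotoneOn_of_deriv_nonneg (convex_Iic a) hcf.continuousOn
        (fun x _ => (hf x).differentiableAt.differentiableWithinAt)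
      intro x hx
      rw [interior_Iic] at hx
      rw [(hf x).deriv]
      exact hfa x (le_of_lt hx)
    have m2 : MonotoneOn (fun x => f x - len α q x + (1 - p₁) * x) (Icc a b) := by
      have hd : ∀ x ∈ Icc a b, HasDerivAt (fun x => f x - len α q x + (1 - p₁) * x)
          (f' x - PP α q x + (1 - p₁)) x := by
        intro x hx
        exact (((hf x).sub (hlen x hx)).add ((hasDerivAt_id x).const_mul (1 - p₁))).congr_deriv
          (by ring)
      apply monotoneOn_of_deriv_nonneg (convex_Icc a b)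
        (fun x hx => (hd x hx).continuousAt.continuousWithinAt)
        (fun x hx => (hd x (interior_subset hx)).differentiableAt.differentiableWithinAt)
      intro x hx
      rw [(hd x (interior_subset hx)).deriv]
      have := (abs_le.1 (hfc x (interior_subset hx))).1
      linarith
    have e1 : f (Q₀ + j) ≤ f a := m1 (show Q₀ + j ≤ a by linarith) (show a ≤ a from le_rfl)
      (by linarith)
    have e2 := m2 (show a ∈ Icc a b from ⟨le_rfl, by linarith⟩) (show Q₀ ∈ Icc a b from ⟨h2, h3⟩) h2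
    simp only at e2
    have e3 : len α q a ≤ a - q := hα.le_left q a h1.le
    have e4 : (1 - p₁) * (Q₀ - a) ≤ (1 - p₁) * 1 :=
      mul_le_mul_of_nonneg_left (by linarith) (by linarith)
    linarith
  · rw [hj]
    simp
  · have hj2 : (1 : ℝ) ≤ j := by
      have : 1 ≤ j := by omega
      exact_mod_cast this
    have m1 : AntitoneOn f (Ici b) := by
      apply antitoneOn_of_deriv_nonpos (convex_Ici b) hcf.continuousOn
        (fun x _ => (hf x).differentiableAt.differentiableWithinAt)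
      intro x hx
      rw [interior_Ici] at hx
      rw [(hf x).deriv]
      exact hfb x (le_of_lt hx)
    have m2 : AntitoneOn (fun x => f x - len α q x - (1 - p₁) * x) (Icc a b) := by
      have hd : ∀ x ∈ Icc a b, HasDerivAt (fun x => f x - len α q x - (1 - p₁) * x)
          (f' x - PP α q x - (1 - p₁)) x := by
        intro x hx
        exact (((hf x).sub (hlen x hx)).sub ((hasDerivAt_id x).const_mul (1 - p₁))).congr_deriv
          (by ring)
      apply antitoneOn_of_deriv_nonpos (convex_Icc a b)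
        (fun x hx => (hd x hx).continuousAt.continuousWithinAt)
        (fun x hx => (hd x (interior_subset hx)).differentiableAt.differentiableWithinAt)
      intro x hx
      rw [(hd x (interior_subset hx)).deriv]
      have := (abs_le.1 (hfc x (interior_subset hx))).2
      linarith
    have e1 : f (Q₀ + j) ≤ f b := m1 (show b ≤ b from le_rfl) (show b ≤ Q₀ + j by linarith)
      (by linarith)
    have e2 := m2 (show Q₀ ∈ Icc a b from ⟨h2, h3⟩) (show b ∈ Icc a b from ⟨by linarith, le_rfl⟩) h3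
    simp only at e2
    have e3 : len α q b ≤ q + 1 - b := hα.le_right q b h4.le
    have e4 : (1 - p₁) * (b - Q₀) ≤ (1 - p₁) * 1 :=
      mul_le_mul_of_nonneg_left (by linarith) (by linarith)
    linarith

/-- the primitive -/
lemma exists_prim {f' : ℝ → ℝ} (hc : Continuous f') (x₀ c : ℝ) :
    ∃ f : ℝ → ℝ, (∀ x, HasDerivAt f (f' x) x) ∧ f x₀ = c := by
  refine ⟨fun x => c + ∫ y in x₀..x, f' y, fun x => ?_, by simp⟩
  exact (intervalIntegral.integral_hasDerivAt_right (hc.intervalIntegrable _ _)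
    (hc.stronglyMeasurableAtFilter _ _) hc.continuousAt).const_add c

end MP43832.Low
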